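import Mathlib

/-!
# A weak form of Bézout's theorem

If the finitely many points of `Y` satisfy `p i (y) + ε * y i ^ E = 0` for all coordinates `i`,
with `ε ≠ 0` and `deg (p i) < E`, then `|Y| ≤ E ^ |σ|`.
-/

namespace Pool.Agent.Lib_helper23.PL

open MvPolynomial

section
variable {σ : Type*} [Fintype σ] [DecidableEq σ]

/-- the span of the reduced monomials, as functions on `Y` -/
noncomputable def redSpan (Y : Finset (σ → ℝ)) (E : ℕ) : Submodule ℝ (Y → ℝ) :=
  Submodule.span ℝ (Set.range (fun m : σ → Fin E => fun y : Y => ∏ i, y.1 i ^ (m i : ℕ)))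

theorem mon_mem (Y : Finset (σ → ℝ)) (ε : ℝ) (hε : ε ≠ 0)
    (E : ℕ) (p : σ → MvPolynomial σ ℝ) (hp : ∀ i, (p i).totalDegree < E)
    (h : ∀ y ∈ Y, ∀ i, eval y (p i) + ε * y i ^ E = 0) :
    ∀ N : ℕ, ∀ m : σ → ℕ, ∑ i, m i = N →
      (fun y : Y => ∏ i, y.1 i ^ m i) ∈ redSpan Y E := by
  intro N
  induction N using Nat.strong_induction_on with
  | _ N ih =>
    intro m hm
    by_cases hall : ∀ i, m i < E
    · apply Submodule.subset_span
      exact ⟨fun i => ⟨m i, hall i⟩, rfl⟩
    · push Not at hall
      obtain ⟨i, hi⟩ := hall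
      set m' : σ → ℕ := fun k => if k = i then m i - E else m k with hm'
      have hsplit : ∀ k, m k = m' k + (if k = i then E else 0) := by
        intro k
        by_cases hk : k = i
        · subst hk
          simp only [hm', if_true]
          omega
        · simp only [hm', hk, if_false, add_zero]
      have key : (fun y : Y => ∏ k, y.1 k ^ m k) = ∑ u ∈ (p i).support,
          (-(1 / ε) * coeff u (p i)) • (fun y : Y => ∏ k, y.1 k ^ (m' k + u k)) := by
        funext y
        have h1 := h y.1 y.2 i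
        have h2 : ∏ k, y.1 k ^ m k = (∏ k, y.1 k ^ m' k) * y.1 i ^ E := by
          have : ∀ k, y.1 k ^ m k = y.1 k ^ m' k * (if k = i then y.1 i ^ E else 1) := by
            intro k
            conv_lhs => rw [hsplit k]
            rw [pow_add]
            by_cases hk : k = i
            · subst hk; simp
            · simp [hk]
          rw [Finset.prod_congr rfl (fun k _ => this k), Finset.prod_mul_distrib]
          congr 1
          rw [Finset.prod_ite_eq' Finset.univ i]
          simp
        have h3 : y.1 i ^ E = -(1 / ε) * eval y.1 (p i) := by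
          field_simp
          linarith
        rw [h2, h3, eval_eq']
        simp only [Finset.sum_apply, Pi.smul_apply, smul_eq_mul]
        rw [Finset.mul_sum, Finset.mul_sum]
        apply Finset.sum_congr rfl
        intro u _
        simp_rw [pow_add, Finset.prod_mul_distrib]
        ring
      rw [key]
      apply Submodule.sum_mem
      intro u hu
      apply Submodule.smul_mem
      apply ih (∑ k, (m' k + u k)) _ _ rfl
      have hd : ∑ k, u k ≤ (p i).totalDegree := by
        have := le_totalDegree hu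
        rwa [Finsupp.sum_fintype _ _ (by simp)] at this
      have hs : ∑ k, m k = ∑ k, m' k + E := by
        rw [Finset.sum_congr rfl (fun k _ => hsplit k), Finset.sum_add_distrib]
        congr 1
        simp
      rw [Finset.sum_add_distrib]
      have := hp i
      omega

theorem eval_mem (Y : Finset (σ → ℝ)) (ε : ℝ) (hε : ε ≠ 0)
    (E : ℕ) (p : σ → MvPolynomial σ ℝ) (hp : ∀ i, (p i).totalDegree < E)
    (h : ∀ y ∈ Y, ∀ i, eval y (p i) + ε * y i ^ E = 0) (q : MvPolynomial σ ℝ) :
    (fun y : Y => eval y.1 q) ∈ redSpan Y E := by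
  have : (fun y : Y => eval y.1 q) = ∑ u ∈ q.support,
      (coeff u q) • (fun y : Y => ∏ k, y.1 k ^ u k) := by
    funext y
    rw [eval_eq']
    simp only [Finset.sum_apply, Pi.smul_apply, smul_eq_mul]
  rw [this]
  apply Submodule.sum_mem
  intro u _
  apply Submodule.smul_mem
  exact mon_mem Y ε hε E p hp h _ _ rfl

theorem indicator_poly (Y : Finset (σ → ℝ)) (y : σ → ℝ) :
    ∃ q : MvPolynomial σ ℝ, eval y q ≠ 0 ∧ ∀ z ∈ Y, z ≠ y → eval z q = 0 := by
  classical
  have hne : ∀ z : σ → ℝ, ∃ i : Option σ, z ≠ y → ∃ j, i = some j ∧ z j ≠ y j := by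
    intro z
    by_cases hz : z = y
    · exact ⟨none, fun h => absurd hz h⟩
    · obtain ⟨j, hj⟩ := Function.ne_iff.mp hz
      exact ⟨some j, fun _ => ⟨j, rfl, hj⟩⟩
  choose i hi using hne
  let fac : (σ → ℝ) → MvPolynomial σ ℝ := fun z =>
    match i z with
    | none => 1
    | some j => X j - C (z j)
  refine ⟨∏ z ∈ Y.erase y, fac z, ?_, ?_⟩
  · rw [map_prod]
    apply Finset.prod_ne_zero_iff.mpr
    intro z hz
    obtain ⟨j, hj, hjne⟩ := hi z (Finset.ne_of_mem_erase hz)
    simp only [fac, hj]
    simp only [map_sub, eval_X, eval_C]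
    exact sub_ne_zero.mpr (Ne.symm hjne)
  · intro z hz hzy
    rw [map_prod]
    apply Finset.prod_eq_zero (Finset.mem_erase.mpr ⟨hzy, hz⟩)
    obtain ⟨j, hj, hjne⟩ := hi z hzy
    simp only [fac, hj]
    simp

/-- weak Bézout -/
theorem weak_bezout (Y : Finset (σ → ℝ)) (ε : ℝ) (hε : ε ≠ 0)
    (E : ℕ) (p : σ → MvPolynomial σ ℝ) (hp : ∀ i, (p i).totalDegree < E)
    (h : ∀ y ∈ Y, ∀ i, eval y (p i) + ε * y i ^ E = 0) :
    Y.card ≤ E ^ Fintype.card σ := by
  classical
  have htop : redSpan Y E = ⊤ := by
    rw [eq_top_iff]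
    intro g _
    have hsum : g = ∑ y : Y, g y • (Pi.single y (1 : ℝ) : Y → ℝ) := by
      funext z
      simp only [Finset.sum_apply, Pi.smul_apply, smul_eq_mul, Pi.single_apply]
      simp
    rw [hsum]
    apply Submodule.sum_mem
    intro y _
    apply Submodule.smul_mem
    obtain ⟨q, hq1, hq2⟩ := indicator_poly Y y.1
    have : (Pi.single y (1 : ℝ) : Y → ℝ) = (eval y.1 q)⁻¹ • (fun z : Y => eval z.1 q) := by
      funext z
      simp only [Pi.single_apply, Pi.smul_apply, smul_eq_mul]
      by_cases hz : z = y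
      · subst hz; simp [hq1]
      · rw [if_neg hz, hq2 z.1 z.2 (fun hh => hz (Subtype.ext hh))]; simp
    rw [this]
    apply Submodule.smul_mem
    exact eval_mem Y ε hε E p hp h q
  have h1 : Module.finrank ℝ (redSpan Y E) = Y.card := by
    rw [htop, finrank_top, Module.finrank_fintype_fun_eq_card, Fintype.card_coe]
  have h2 : Module.finrank ℝ (redSpan Y E) ≤ Fintype.card (σ → Fin E) :=
    finrank_range_le_card _
  rw [h1] at h2
  simpa using h2

end

end Pool.Agent.Lib_helper23.PL
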