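import Pool.Agent.Lib_helper23.PL.Elim

/-!
# Subdivisions and sign vectors
-/

namespace Pool.Agent.Lib_helper23.PL

open Filter Topology

/-- homogeneous coordinates -/
def hom {d : ℕ} (q : Fin d → ℝ) : Fin (d + 1) → ℝ := Fin.cons 1 q

theorem hom_zero {d : ℕ} (q : Fin d → ℝ) : hom q 0 = 1 := rfl

theorem val_hom {d : ℕ} (c : Fin (d + 1) → ℝ) (q : Fin d → ℝ) :
    val c (hom q) = c 0 + ∑ i : Fin d, c i.succ * q i := by
  simp [val, hom, Fin.sum_univ_succ]

theorem val_hom_line {d : ℕ} (c : Fin (d + 1) → ℝ) (x y : Fin d → ℝ) (t : ℝ) :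
    val c (hom ((1 - t) • x + t • y)) = (1 - t) * val c (hom x) + t * val c (hom y) := by
  simp only [val_hom, Pi.add_apply, Pi.smul_apply, smul_eq_mul]
  rw [mul_add, mul_add, Finset.mul_sum, Finset.mul_sum]
  have : ∑ i : Fin d, c i.succ * ((1 - t) * x i + t * y i) =
      ∑ i : Fin d, (1 - t) * (c i.succ * x i) + ∑ i : Fin d, t * (c i.succ * y i) := by
    rw [← Finset.sum_add_distrib]
    exact Finset.sum_congr rfl fun i _ => by ring
  rw [this]
  ring

theorem continuous_val_hom {d : ℕ} (c : Fin (d + 1) → ℝ) :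
    Continuous (fun q : Fin d → ℝ => val c (hom q)) := by
  simp only [val_hom]
  fun_prop

/-- the functionals `c (i, ·)` describe the affine span of the `i`-th face -/
def Describes {n d : ℕ} (F : Fin n → Set (Fin d → ℝ)) (c : Fin n × Fin d → Fin (d + 1) → ℝ) :
    Prop :=
  ∀ i q, q ∈ affineSpan ℝ (F i) ↔ ∀ j, val (c (i, j)) (hom q) = 0

theorem exists_describes_one {d : ℕ} (s : AffineSubspace ℝ (Fin d → ℝ)) (p : Fin d → ℝ)
    (hp : p ∈ s) : ∃ c : Fin d → Fin (d + 1) → ℝ, ∀ q, q ∈ s ↔ ∀ j, val (c j) (hom q) = 0 := by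
  obtain ⟨W', hW'⟩ := Submodule.exists_isCompl s.direction
  set φ : (Fin d → ℝ) →ₗ[ℝ] (Fin d → ℝ) := W'.projection s.direction hW'.symm with hφ
  refine ⟨fun j => Fin.cons (-(φ p) j) (fun l => φ (fun k => if l = k then 1 else 0) j),
    fun q => ?_⟩
  have hv : ∀ j, val (Fin.cons (-(φ p) j) (fun l => φ (fun k => if l = k then 1 else 0) j))
      (hom q) = φ (q - p) j := by
    intro j
    rw [val_hom, map_sub, Pi.sub_apply]
    simp only [Fin.cons_zero, Fin.cons_succ]
    have h1 : φ q = ∑ i, q i • φ (fun k => if i = k then 1 else 0) :=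
      LinearMap.pi_apply_eq_sum_univ φ q
    have h2 : φ q j = ∑ i, φ (fun k => if i = k then 1 else 0) j * q i := by
      rw [h1, Finset.sum_apply]
      exact Finset.sum_congr rfl fun i _ => by rw [Pi.smul_apply, smul_eq_mul, mul_comm]
    rw [← h2]
    ring
  simp only [hv]
  rw [← AffineSubspace.vsub_right_mem_direction_iff_mem hp, vsub_eq_sub,
    ← Submodule.projection_apply_eq_zero_iff hW'.symm, ← hφ]
  exact funext_iff

theorem exists_describes {n d : ℕ} (F : Fin n → Set (Fin d → ℝ)) (hF : IsSubdivision F) :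
    ∃ c, Describes F c := by
  have : ∀ i, ∃ c : Fin d → Fin (d + 1) → ℝ,
      ∀ q, q ∈ affineSpan ℝ (F i) ↔ ∀ j, val (c j) (hom q) = 0 := by
    intro i
    obtain ⟨p, hp⟩ := (hF.connected i).nonempty
    exact exists_describes_one _ p (subset_affineSpan ℝ (F i) hp)
  choose c hc using this
  exact ⟨fun p => c p.1 p.2, fun i q => hc i q⟩

theorem sign_line {a b t : ℝ} (h0 : 0 < t) (h1 : t ≤ 1)
    (h : SignType.sign a = 0 ∨ SignType.sign a = SignType.sign b) :
    SignType.sign ((1 - t) * a + t * b) = SignType.sign b := by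
  rcases h with h | h
  · rw [sign_eq_zero_iff] at h
    rw [h, mul_zero, zero_add, sign_mul, sign_pos h0, one_mul]
  · rcases lt_trichotomy b 0 with hb | hb | hb
    · rw [sign_neg hb, sign_eq_neg_one_iff] at h
      rw [sign_neg hb, sign_neg]
      nlinarith
    · rw [hb, sign_zero, sign_eq_zero_iff] at h
      rw [h, hb]
      simp
    · rw [sign_pos hb, sign_eq_one_iff] at h
      rw [sign_pos hb, sign_pos]
      nlinarith

theorem sign_line' {a b t : ℝ} (h0 : 0 ≤ t) (h1 : t ≤ 1)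
    (h : SignType.sign a = SignType.sign b) :
    SignType.sign ((1 - t) * a + t * b) = SignType.sign b := by
  rcases h0.eq_or_lt with h2 | h2
  · rw [← h2]
    simpa using h
  · exact sign_line h2 h1 (Or.inr h)

theorem continuous_line {d : ℕ} (x y : Fin d → ℝ) :
    Continuous (fun t : ℝ => (1 - t) • x + t • y) := by
  fun_prop

/-- points with equal sign vectors lie in the same face -/
theorem same_face {n d : ℕ} {F : Fin n → Set (Fin d → ℝ)} (hF : IsSubdivision F)
    {c : Fin n × Fin d → Fin (d + 1) → ℝ} (hc : Describes F c) {x y : Fin d → ℝ}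
    (h : ∀ a, SignType.sign (val (c a) (hom x)) = SignType.sign (val (c a) (hom y))) {i : Fin n}
    (hx : x ∈ F i) : y ∈ F i := by
  classical
  choose U hU1 hU2 using hF.relOpen
  by_contra hy
  obtain ⟨k₀, hk₀⟩ := hF.cover y
  have hk₀i : k₀ ≠ i := fun hh => hy (hh ▸ hk₀)
  set γ : ℝ → (Fin d → ℝ) := fun t => (1 - t) • x + t • y with hγ
  have hγc : Continuous γ := continuous_line x y
  have hγs : ∀ t ∈ Set.Icc (0 : ℝ) 1, ∀ a,
      SignType.sign (val (c a) (hom (γ t))) = SignType.sign (val (c a) (hom y)) := by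
    intro t ht a
    simp only [hγ]
    rw [val_hom_line]
    exact sign_line' ht.1 ht.2 (h a)
  have haff : ∀ k, ∀ t ∈ Set.Icc (0 : ℝ) 1, γ t ∈ F k →
      ∀ u ∈ Set.Icc (0 : ℝ) 1, γ u ∈ affineSpan ℝ (F k) := by
    intro k t ht htk u hu
    rw [hc]
    intro j
    have h1 : val (c (k, j)) (hom (γ t)) = 0 :=
      (hc k (γ t)).mp (subset_affineSpan ℝ _ htk) j
    rw [← sign_eq_zero_iff, hγs u hu, ← hγs t ht, sign_eq_zero_iff]
    exact h1
  have hγ0 : γ 0 = x := by simp [hγ]
  have hγ1 : γ 1 = y := by simp [hγ]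
  set V₁ : Set ℝ := γ ⁻¹' (U i) with hV₁
  set V₂ : Set ℝ := ⋃ k : {k : Fin n // k ≠ i ∧ ∀ u ∈ Set.Icc (0 : ℝ) 1,
    γ u ∈ affineSpan ℝ (F k)}, γ ⁻¹' (U k.1) with hV₂
  have hi : ∀ u ∈ Set.Icc (0 : ℝ) 1, γ u ∈ affineSpan ℝ (F i) :=
    haff i 0 ⟨le_rfl, zero_le_one⟩ (by rwa [hγ0])
  have hcov : Set.Icc (0 : ℝ) 1 ⊆ V₁ ∪ V₂ := by
    intro t ht
    obtain ⟨k, hk⟩ := hF.cover (γ t)
    have hkU : γ t ∈ U k := by
      rw [hU2 k] at hk
      exact hk.1
    by_cases hki : k = i
    · subst hki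
      exact Or.inl hkU
    · exact Or.inr (Set.mem_iUnion.mpr ⟨⟨k, hki, haff k t ht hk⟩, hkU⟩)
  obtain ⟨t, ht, ht1, ht2⟩ := (isPreconnected_Icc (a := (0 : ℝ)) (b := 1)) V₁ V₂
    ((hU1 i).preimage hγc) (isOpen_iUnion fun k => (hU1 k.1).preimage hγc) hcov
    ⟨0, ⟨le_rfl, zero_le_one⟩, by
      show γ 0 ∈ U i
      rw [hγ0]
      rw [hU2 i] at hx
      exact hx.1⟩
    ⟨1, ⟨zero_le_one, le_rfl⟩, by
      refine Set.mem_iUnion.mpr ⟨⟨k₀, hk₀i, haff k₀ 1 ⟨zero_le_one, le_rfl⟩ (by rwa [hγ1])⟩, ?_⟩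
      show γ 1 ∈ U k₀
      rw [hγ1]
      rw [hU2 k₀] at hk₀
      exact hk₀.1⟩
  obtain ⟨⟨k, hki, hkaff⟩, hkU⟩ := Set.mem_iUnion.mp ht2
  have m1 : γ t ∈ F i := by
    rw [hU2 i]
    exact ⟨ht1, hi t ht⟩
  have m2 : γ t ∈ F k := by
    rw [hU2 k]
    exact ⟨hkU, hkaff t ht⟩
  exact Set.disjoint_left.mp (hF.disjoint i k (Ne.symm hki)) m1 m2

/-- `q` and `q'` have the same sign vectors -/
def Same {A : Type} {d : ℕ} (c c' : A → Fin (d + 1) → ℝ) (q q' : Fin d → ℝ) : Prop :=
  ∀ a, SignType.sign (val (c a) (hom q)) = SignType.sign (val (c' a) (hom q'))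

theorem Same.symm {A : Type} {d : ℕ} {c c' : A → Fin (d + 1) → ℝ} {q q' : Fin d → ℝ}
    (h : Same c c' q q') : Same c' c q' q := fun a => (h a).symm

theorem exists_same {A : Type} [Finite A] {d : ℕ} {c c' : A → Fin (d + 1) → ℝ}
    (h : SI d c c') (q : Fin d → ℝ) : ∃ q', Same c c' q q' := by
  obtain ⟨x', h0, hx⟩ := h.realize (hom q) rfl
  refine ⟨fun i => x' i.succ, fun a => ?_⟩
  have : hom (fun i => x' i.succ) = x' := by
    funext i
    refine Fin.cases ?_ (fun i => ?_) i
    · exact h0.symm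
    · rfl
  rw [this]
  exact hx a

theorem label_step {n d : ℕ} {F F' : Fin n → Set (Fin d → ℝ)} (hF : IsSubdivision F)
    (hF' : IsSubdivision F') {c c' : Fin n × Fin d → Fin (d + 1) → ℝ} (hc : Describes F c)
    (hc' : Describes F' c') (hSI : SI d c c') {s s' : Fin n → Fin d → ℝ}
    (hs : ∀ i, s i ∈ F i) (hs' : ∀ i, s' i ∈ F' i) (hss : ∀ i, Same c c' (s i) (s' i))
    (hdim : ∀ i, dim (F i) = dim (F' i)) (i : Fin n)
    (ih : ∀ k, dim (F k) < dim (F i) → ∀ q q', Same c c' q q' → q' ∈ F' k → q ∈ F k) :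
    ∀ q q', Same c c' q q' → q ∈ F i → q' ∈ F' i := by
  classical
  set G : Set (Fin d → ℝ) := {x | ∀ x', Same c c' x x' → x' ∈ F' i} with hG
  -- transfer in the target
  have htr : ∀ x' y', Same c' c' x' y' → x' ∈ F' i → y' ∈ F' i := fun x' y' hh hx' =>
    same_face hF' hc' hh hx'
  have hbase : s i ∈ G := fun x' hx' => htr (s' i) x' (fun a => (hss i a).symm.trans (hx' a)) (hs' i)
  -- the key comparison
  have hcmp : ∀ x ∈ F i, ∀ y ∈ F i, (∀ a, SignType.sign (val (c a) (hom x)) = 0 ∨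
      SignType.sign (val (c a) (hom x)) = SignType.sign (val (c a) (hom y))) →
      (x ∈ G ↔ y ∈ G) := by
    intro x hx y hy hle
    have hline : ∀ x' y', Same c c' x x' → Same c c' y y' → ∀ t : ℝ, 0 < t → t ≤ 1 →
        Same c' c' ((1 - t) • x' + t • y') y' := by
      intro x' y' hxx hyy t ht0 ht1 a
      rw [val_hom_line]
      apply sign_line ht0 ht1
      rcases hle a with h0 | h0
      · exact Or.inl ((hxx a).symm.trans h0)
      · exact Or.inr (((hxx a).symm.trans h0).trans (hyy a))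
    constructor
    · intro hxG y' hyy
      obtain ⟨x', hxx⟩ := exists_same hSI x
      have hx' : x' ∈ F' i := hxG x' hxx
      obtain ⟨U, hU1, hU2⟩ := hF'.relOpen i
      have hzero : ∀ z z', z ∈ F i → Same c c' z z' → ∀ j, val (c' (i, j)) (hom z') = 0 := by
        intro z z' hz hzz j
        rw [← sign_eq_zero_iff, ← hzz (i, j), sign_eq_zero_iff]
        exact (hc i z).mp (subset_affineSpan ℝ _ hz) j
      have hx0 := hzero x x' hx hxx
      have hy0 := hzero y y' hy hyy
      have hlc : Tendsto (fun t : ℝ => (1 - t) • x' + t • y') (𝓝[>] 0) (𝓝 x') := by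
        have h1 := (continuous_line x' y').tendsto 0
        simp only [sub_zero, one_smul, zero_smul, add_zero] at h1
        exact h1.mono_left nhdsWithin_le_nhds
      have hxU : x' ∈ U := by
        rw [hU2] at hx'
        exact hx'.1
      have hev : ∀ᶠ t : ℝ in 𝓝[>] 0, (1 - t) • x' + t • y' ∈ U ∧ t ∈ Set.Ioo (0 : ℝ) 1 :=
        (hlc.eventually (hU1.mem_nhds hxU)).and (Ioo_mem_nhdsGT one_pos)
      obtain ⟨t, htU, ht⟩ := hev.exists
      have hzF : (1 - t) • x' + t • y' ∈ F' i := by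
        rw [hU2]
        refine ⟨htU, ?_⟩
        rw [SetLike.mem_coe, hc']
        intro j
        rw [val_hom_line, hx0, hy0]
        ring
      exact htr _ y' (hline x' y' hxx hyy t ht.1 ht.2.le) hzF
    · intro hyG x' hxx
      obtain ⟨y', hyy⟩ := exists_same hSI y
      have hy' : y' ∈ F' i := hyG y' hyy
      have hmem : ∀ t : ℝ, 0 < t → t ≤ 1 → (1 - t) • x' + t • y' ∈ F' i := by
        intro t ht0 ht1
        exact htr y' _ (fun a => (hline x' y' hxx hyy t ht0 ht1 a).symm) hy'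
      have hlc : Tendsto (fun t : ℝ => (1 - t) • x' + t • y') (𝓝[>] 0) (𝓝 x') := by
        have h1 := (continuous_line x' y').tendsto 0
        simp only [sub_zero, one_smul, zero_smul, add_zero] at h1
        exact h1.mono_left nhdsWithin_le_nhds
      have hcl : x' ∈ closure (F' i) := by
        apply mem_closure_of_tendsto hlc
        filter_upwards [Ioo_mem_nhdsGT one_pos] with t ht
        exact hmem t ht.1 ht.2.le
      by_contra hcon
      obtain ⟨k, hk1, hk2⟩ := hF'.frontier i x' hcl hcon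
      have hki : k ≠ i := by
        intro hh
        rw [hh] at hk2
        exact lt_irrefl _ hk2
      rw [← hdim, ← hdim] at hk2
      have := ih k hk2 x x' hxx hk1
      exact Set.disjoint_left.mp (hF.disjoint k i hki) this hx
  -- locally constant
  have hloc : ∀ x ∈ F i, ∀ᶠ y in 𝓝[F i] x, (x ∈ G ↔ y ∈ G) := by
    intro x hx
    have h1 : ∀ᶠ y in 𝓝 x, ∀ a, SignType.sign (val (c a) (hom x)) = 0 ∨
        SignType.sign (val (c a) (hom x)) = SignType.sign (val (c a) (hom y)) := by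
      rw [eventually_all]
      intro a
      have hca := (continuous_val_hom (c a)).continuousAt (x := x)
      rcases lt_trichotomy (val (c a) (hom x)) 0 with hlt | heq | hgt
      · filter_upwards [hca.eventually_lt continuousAt_const hlt] with y hy
        right
        rw [sign_neg hlt, sign_neg hy]
      · exact Eventually.of_forall fun y => Or.inl (by rw [heq, sign_zero])
      · filter_upwards [continuousAt_const.eventually_lt hca hgt] with y hy
        right
        rw [sign_pos hgt, sign_pos hy]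
    filter_upwards [nhdsWithin_le_nhds h1, self_mem_nhdsWithin] with y hy1 hy2
    exact hcmp x hx y hy2 hy1
  have hall : ∀ x ∈ F i, (s i ∈ G ↔ x ∈ G) := by
    intro x hx
    refine (hF.connected i).isPreconnected.induction₂ (fun x y => (x ∈ G ↔ y ∈ G)) hloc ?_ ?_
      (hs i) hx
    · intro x y z _ _ _ h1 h2
      exact h1.trans h2
    · intro x y _ _ h1
      exact h1.symm
  intro q q' hqq hq
  exact ((hall q hq).mp hbase) q' hqq

/-- the label lemma -/
theorem label {n d : ℕ} {F F' : Fin n → Set (Fin d → ℝ)} (hF : IsSubdivision F)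
    (hF' : IsSubdivision F') {c c' : Fin n × Fin d → Fin (d + 1) → ℝ} (hc : Describes F c)
    (hc' : Describes F' c') (hSI : SI d c c') {s s' : Fin n → Fin d → ℝ}
    (hs : ∀ i, s i ∈ F i) (hs' : ∀ i, s' i ∈ F' i) (hss : ∀ i, Same c c' (s i) (s' i))
    (hdim : ∀ i, dim (F i) = dim (F' i)) :
    ∀ N : ℕ, ∀ i, dim (F i) = N → ∀ q q', Same c c' q q' → (q ∈ F i ↔ q' ∈ F' i) := by
  intro N
  induction N using Nat.strong_induction_on with
  | _ N ih =>
    intro i hi
    have h1 := label_step hF hF' hc hc' hSI hs hs' hss hdim i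
      (fun k hk q q' hqq hq' => (ih (dim (F k)) (hi ▸ hk) k rfl q q' hqq).mpr hq')
    have h2 := label_step hF' hF hc' hc hSI.symm hs' hs (fun i => (hss i).symm)
      (fun i => (hdim i).symm) i
      (fun k hk q q' hqq hq' => (ih (dim (F k)) (by rw [hdim, ← hi, hdim]; exact hk) k rfl q' q
        hqq.symm).mp hq')
    intro q q' hqq
    exact ⟨h1 q q' hqq, h2 q' q hqq.symm⟩

end Pool.Agent.Lib_helper23.PL
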