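import Pool.Agent.Lib_helper23.PL.Level
import Pool.Agent.Lib_helper23.PL.Subdiv

/-!
# Counting the kinds of subdivisions
-/

namespace Pool.Agent.Lib_helper23.PL

open MvPolynomial

/-- the real parameters: coefficients of the functionals and coordinates of the samples -/
abbrev Vars (n d : ℕ) : Type := ((Fin n × Fin d) × Fin (d + 1)) ⊕ (Fin n × Fin d)

/-- the coefficients -/
def coef {n d : ℕ} (x : Vars n d → ℝ) : Fin n × Fin d → Fin (d + 1) → ℝ :=
  fun a l => x (Sum.inl (a, l))

/-- the samples -/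
def samp {n d : ℕ} (x : Vars n d → ℝ) : Fin n → Fin d → ℝ := fun i l => x (Sum.inr (i, l))

theorem card_range_sign {σ J : Type} [Fintype σ] [DecidableEq σ] [Fintype J]
    (f : J → MvPolynomial σ ℝ) (D : ℕ) (hD : ∀ j, (f j).totalDegree ≤ D) :
    Nat.card (Set.range (fun x : σ → ℝ => fun j => SignType.sign (eval x (f j)))) ≤
      (4 * Fintype.card J * D + 3) ^ Fintype.card σ := by
  classical
  set g : (σ → ℝ) → (J → SignType) := fun x => fun j => SignType.sign (eval x (f j)) with hg
  have : Fintype (Set.range g) := Fintype.ofFinite _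
  set pt : Set.range g → (σ → ℝ) := fun v => Classical.choose v.2 with hpt
  have hpt' : ∀ v, g (pt v) = v.1 := fun v => Classical.choose_spec v.2
  have hinj : Function.Injective pt := by
    intro v w hvw
    apply Subtype.ext
    rw [← hpt' v, ← hpt' w, hvw]
  have hcard : (Finset.univ.image pt).card = Nat.card (Set.range g) := by
    rw [Finset.card_image_of_injective _ hinj, Finset.card_univ, Nat.card_eq_fintype_card]
  rw [← hcard]
  apply warren f D hD
  intro w hw w' hw' hww
  obtain ⟨v, _, rfl⟩ := Finset.mem_image.mp hw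
  obtain ⟨v', _, rfl⟩ := Finset.mem_image.mp hw'
  have : g (pt v) = g (pt v') := funext hww
  rw [hpt', hpt'] at this
  rw [Subtype.ext this]

theorem arith (d M B : ℕ) (n : ℕ) (hn : 2 ≤ n) :
    (4 * ((n * d + 2) ^ M + n * d * n) * (B + 1) + 3) ^ (n * d * (d + 2)) * (d + 1) ^ n ≤
      n ^ ((((d + 2) * M + (d + 2) + 1 + 3 + (B + 1)) * (d * (d + 2)) + (d + 1)) * n) := by
  have hpow : ∀ k : ℕ, k + 1 ≤ n ^ (k + 1) := by
    intro k
    calc k + 1 ≤ 2 ^ (k + 1) := (Nat.lt_two_pow_self).le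
      _ ≤ n ^ (k + 1) := Nat.pow_le_pow_left hn _
  have h1 : n * d + 2 ≤ n ^ (d + 2) := by
    calc n * d + 2 ≤ n * (d + 1) := by rw [Nat.mul_add, mul_one]; omega
      _ ≤ n * n ^ (d + 1) := Nat.mul_le_mul_left _ (hpow d)
      _ = n ^ (d + 2) := by ring
  have h2 : (n * d + 2) ^ M ≤ n ^ ((d + 2) * M) := by
    rw [pow_mul]
    exact Nat.pow_le_pow_left h1 M
  have h3 : n * d * n ≤ n ^ (d + 2) := by
    calc n * d * n ≤ n * n ^ d * n := by
          apply Nat.mul_le_mul_right
          apply Nat.mul_le_mul_left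
          rcases d with _ | d
          · exact Nat.zero_le _
          · exact hpow d
      _ = n ^ (d + 2) := by ring
  have hone : ∀ k : ℕ, 1 ≤ n ^ k := fun k => Nat.one_le_pow _ _ (by omega)
  have h4 : (n * d + 2) ^ M + n * d * n ≤ n ^ ((d + 2) * M + (d + 2) + 1) := by
    set u := n ^ ((d + 2) * M)
    set v := n ^ (d + 2)
    have hu : 1 ≤ u := hone _
    have hv : 1 ≤ v := hone _
    calc (n * d + 2) ^ M + n * d * n ≤ u + v := Nat.add_le_add h2 h3
      _ ≤ u * v * 2 := by nlinarith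
      _ ≤ u * v * n := Nat.mul_le_mul_left _ hn
      _ = n ^ ((d + 2) * M + (d + 2) + 1) := by
        rw [pow_succ, pow_add]
  set T := n ^ ((d + 2) * M + (d + 2) + 1) with hT
  have hT1 : 1 ≤ T := hone _
  have h5 : 4 * ((n * d + 2) ^ M + n * d * n) * (B + 1) + 3 ≤
      n ^ ((d + 2) * M + (d + 2) + 1 + 3 + (B + 1)) := by
    calc 4 * ((n * d + 2) ^ M + n * d * n) * (B + 1) + 3 ≤ 4 * T * (B + 1) + 3 := by
          apply Nat.add_le_add_right
          apply Nat.mul_le_mul_right
          exact Nat.mul_le_mul_left 4 h4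
      _ ≤ T * 2 ^ 3 * (B + 1) := by nlinarith
      _ ≤ T * n ^ 3 * n ^ (B + 1) :=
          Nat.mul_le_mul (Nat.mul_le_mul_left _ (Nat.pow_le_pow_left hn 3)) (hpow B)
      _ = n ^ ((d + 2) * M + (d + 2) + 1 + 3 + (B + 1)) := by
          rw [hT]
          ring
  set Q := (d + 2) * M + (d + 2) + 1 + 3 + (B + 1) with hQ
  calc _ ≤ (n ^ Q) ^ (n * d * (d + 2)) * (n ^ (d + 1)) ^ n :=
        Nat.mul_le_mul (Nat.pow_le_pow_left h5 _) (Nat.pow_le_pow_left (hpow d) _)
    _ = n ^ ((Q * (d * (d + 2)) + (d + 1)) * n) := by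
        rw [← pow_mul, ← pow_mul, ← pow_add]
        congr 1
        ring

/-- the code of a kind of subdivisions takes `O(n)` words of `log n` bits -/
theorem exists_code (d : ℕ) : ∃ C₁ : ℕ, ∀ n : ℕ, 2 ≤ n → ∀ C : ℕ, C₁ ≤ C →
    ∃ code : (Vars n d → ℝ) → (Fin n → Fin (d + 1)) → (Fin (C * n) → Fin n),
      ∀ x x' δ δ', code x δ = code x' δ' → δ = δ' ∧ SI d (coef x) (coef x') ∧
        ∀ i, Same (coef x) (coef x') (samp x i) (samp x' i) := by
  classical
  obtain ⟨M, B, h⟩ := info d 1
  set B' : ℕ := B + (d + 1) * 4 with hB'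
  refine ⟨((d + 2) * M + (d + 2) + 1 + 3 + (B' + 1)) * (d * (d + 2)) + (d + 1),
    fun n hn C hC => ?_⟩
  obtain ⟨J, _, g, hJ, hg, hs⟩ := h (Vars n d) (Fin n × Fin d)
    (fun a l => Expr.var (Sum.inl (a, l))) (fun a l => le_rfl)
  have hval : ∀ p : (Fin n × Fin d) × Fin n, ∃ E : Expr (Vars n d), E.cost ≤ (d + 1) * (2 * 1 + 2) ∧
      ∀ x, E.eval x = val (coef x p.1) (hom (samp x p.2)) := by
    intro p
    obtain ⟨E, hE1, hE2⟩ := exists_valE (ι := Vars n d) 1 (d + 1)
      (fun l => Expr.var (Sum.inl (p.1, l)))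
      (Fin.cons Expr.one (fun l => Expr.var (Sum.inr (p.2, l)))) (fun l => le_rfl)
      (fun l => by refine Fin.cases (Nat.zero_le _) (fun l => ?_) l; exact le_rfl)
    refine ⟨E, hE1, fun x => ?_⟩
    rw [hE2]
    congr 1
    funext l
    refine Fin.cases rfl (fun l => ?_) l
    rfl
  choose V hV1 hV2 using hval
  set G : J ⊕ ((Fin n × Fin d) × Fin n) → Expr (Vars n d) := Sum.elim g V with hG
  set f : J ⊕ ((Fin n × Fin d) × Fin n) → MvPolynomial (Vars n d) ℝ :=
    fun j => (G j).toPoly with hf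
  have hdeg : ∀ j, (f j).totalDegree ≤ B' + 1 := by
    intro j
    refine (Expr.degree_toPoly _).trans ?_
    rcases j with j | p
    · have := hg j
      simp only [hG, Sum.elim_inl]
      omega
    · have := hV1 p
      simp only [hG, Sum.elim_inr]
      omega
  set sg : (Vars n d → ℝ) → (J ⊕ ((Fin n × Fin d) × Fin n) → SignType) :=
    fun x => fun j => SignType.sign (eval x (f j)) with hsg
  have hrange : Nat.card (Set.range sg) ≤
      (4 * Fintype.card (J ⊕ ((Fin n × Fin d) × Fin n)) * (B' + 1) + 3) ^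
        Fintype.card (Vars n d) := card_range_sign f (B' + 1) hdeg
  have hcV : Fintype.card (Vars n d) = n * d * (d + 2) := by
    simp only [Vars, Fintype.card_sum, Fintype.card_prod, Fintype.card_fin]
    ring
  have hcJ : Fintype.card (J ⊕ ((Fin n × Fin d) × Fin n)) ≤ (n * d + 2) ^ M + n * d * n := by
    rw [Fintype.card_sum]
    apply Nat.add_le_add
    · simpa using hJ
    · simp
  have htot : Nat.card (Set.range sg × (Fin n → Fin (d + 1))) ≤
      Nat.card (Fin (C * n) → Fin n) := by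
    rw [Nat.card_prod, Nat.card_fun, Nat.card_fun, Nat.card_fin, Nat.card_fin, Nat.card_fin]
    calc Nat.card (Set.range sg) * (d + 1) ^ n
        ≤ (4 * ((n * d + 2) ^ M + n * d * n) * (B' + 1) + 3) ^ (n * d * (d + 2)) *
            (d + 1) ^ n := by
          apply Nat.mul_le_mul_right
          refine hrange.trans ?_
          rw [hcV]
          apply Nat.pow_le_pow_left
          apply Nat.add_le_add_right
          apply Nat.mul_le_mul_right
          exact Nat.mul_le_mul_left 4 hcJ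
      _ ≤ _ := arith d M B' n hn
      _ ≤ n ^ (C * n) := Nat.pow_le_pow_right (by omega) (Nat.mul_le_mul_right n hC)
  have hfin1 : Finite (Set.range sg × (Fin n → Fin (d + 1))) := inferInstance
  obtain ⟨κ⟩ : Nonempty (Set.range sg × (Fin n → Fin (d + 1)) ↪ (Fin (C * n) → Fin n)) := by
    have : Fintype (Set.range sg) := Fintype.ofFinite _
    apply Function.Embedding.nonempty_of_card_le
    rw [← Nat.card_eq_fintype_card, ← Nat.card_eq_fintype_card]
    exact htot
  refine ⟨fun x δ => κ (⟨sg x, ⟨x, rfl⟩⟩, δ), fun x x' δ δ' hxx => ?_⟩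
  have h1 := κ.injective hxx
  obtain ⟨h2', h3⟩ := Prod.mk.inj h1
  have h2 : sg x = sg x' := congrArg Subtype.val h2'
  have h4 : ∀ j, SignType.sign ((G j).eval x) = SignType.sign ((G j).eval x') := by
    intro j
    have := congrFun h2 j
    simp only [hsg, hf, Expr.eval_toPoly] at this
    exact this
  refine ⟨h3, hs x x' (fun j => h4 (Sum.inl j)), fun i a => ?_⟩
  rw [← hV2 (a, i) x, ← hV2 (a, i) x']
  exact h4 (Sum.inr (a, i))

end Pool.Agent.Lib_helper23.PL
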