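import Mathlib

/-!
# Algebraic computation trees and subdivisions
-/

namespace Pool.Agent.Lib_helper23.PL

/-- Arithmetic expressions over the words `ι`: variables, the constants `0` and `1`, and the
operations `+`, `-`, `×`. -/
inductive Expr (ι : Type) where
  | var : ι → Expr ι
  | zero : Expr ι
  | one : Expr ι
  | add : Expr ι → Expr ι → Expr ι
  | sub : Expr ι → Expr ι → Expr ι
  | mul : Expr ι → Expr ι → Expr ι

/-- the number of arithmetic operations in an expression plus the number of words it reads -/
def Expr.cost {ι : Type} : Expr ι → ℕ
  | .var _ => 1
  | .zero => 0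
  | .one => 0
  | .add e f => e.cost + f.cost + 1
  | .sub e f => e.cost + f.cost + 1
  | .mul e f => e.cost + f.cost + 1

/-- the value of an expression when the words have the values `x` -/
noncomputable def Expr.eval {ι : Type} (x : ι → ℝ) : Expr ι → ℝ
  | .var i => x i
  | .zero => 0
  | .one => 1
  | .add e f => e.eval x + f.eval x
  | .sub e f => e.eval x - f.eval x
  | .mul e f => e.eval x * f.eval x

/-- Computation trees: a leaf carries the answer; a node evaluates an expression and branches
according to the sign of its value. -/
inductive Tree (ι α : Type) where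
  | leaf : α → Tree ι α
  | node : Expr ι → (SignType → Tree ι α) → Tree ι α

/-- the answer of the tree on the input `x` -/
noncomputable def Tree.run {ι α : Type} (x : ι → ℝ) : Tree ι α → α
  | .leaf a => a
  | .node e b => (b (SignType.sign (e.eval x))).run x

/-- the number of arithmetic operations, of comparisons and of words read on the input `x`; every
test of a sign is charged two comparisons -/
noncomputable def Tree.time {ι α : Type} (x : ι → ℝ) : Tree ι α → ℕ
  | .leaf _ => 0
  | .node e b => e.cost + 2 + (b (SignType.sign (e.eval x))).time x

/-- the dimension of (the affine span of) a set of points -/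
noncomputable def dim {d : ℕ} (s : Set (Fin d → ℝ)) : ℕ :=
  Module.finrank ℝ (affineSpan ℝ s).direction

/-- `F 0, …, F (n-1)` are the relatively open faces of a subdivision of `ℝ^d`. -/
structure IsSubdivision {d n : ℕ} (F : Fin n → Set (Fin d → ℝ)) : Prop where
  /-- the faces are nonempty and connected -/
  connected : ∀ i, IsConnected (F i)
  /-- the faces are pairwise disjoint -/
  disjoint : ∀ i j, i ≠ j → Disjoint (F i) (F j)
  /-- the faces cover the space -/
  cover : ∀ q, ∃ i, q ∈ F i
  /-- every face is relatively open in its affine span -/
  relOpen : ∀ i, ∃ U : Set (Fin d → ℝ), IsOpen U ∧ F i = U ∩ affineSpan ℝ (F i)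
  /-- the relative boundary of a face is covered by faces of smaller dimension -/
  frontier : ∀ i, ∀ q ∈ closure (F i), q ∉ F i → ∃ j, q ∈ F j ∧ dim (F j) < dim (F i)

/-- A point-location scheme for the subdivisions of `ℝ^d` with `n` faces, with `m` words for real
numbers, `m'` words for pointers (numbers in `Fin n`) and query time `t`: the tree `P p` answering
the queries depends on `n` and on the stored pointers `p` only; its inputs are the coordinates of
the query point and the stored real numbers `r`. -/
def Scheme (d n m m' t : ℕ) : Prop :=
  ∃ P : (Fin m' → Fin n) → Tree (Fin d ⊕ Fin m) (Fin n),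
    ∀ F : Fin n → Set (Fin d → ℝ), IsSubdivision F →
      ∃ (r : Fin m → ℝ) (p : Fin m' → Fin n), ∀ q : Fin d → ℝ,
        q ∈ F ((P p).run (Sum.elim q r)) ∧ (P p).time (Sum.elim q r) ≤ t

end Pool.Agent.Lib_helper23.PL
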