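import Pool.Agent.Lib_helper23.PL.Loc

/-!
# Elimination of variables (Dobkin–Lipton)
-/

namespace Pool.Agent.Lib_helper23.PL

/-- the value of a homogeneous linear functional -/
def val {R : Type} [CommRing R] {k : ℕ} (c x : Fin k → R) : R := ∑ i, c i * x i

theorem val_succ {R : Type} [CommRing R] {k : ℕ} (c x : Fin (k + 1) → R) :
    val c x = val (fun i => c i.castSucc) (fun i => x i.castSucc) +
      c (Fin.last k) * x (Fin.last k) := by
  simp only [val, Fin.sum_univ_castSucc]

/-- eliminating the last variable -/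
def nxt {R A : Type} [CommRing R] {k : ℕ} (c : A → Fin (k + 1) → R) : A ⊕ A × A → Fin k → R
  | Sum.inl a => fun i => c a i.castSucc
  | Sum.inr p => fun i => c p.1 (Fin.last k) * c p.2 i.castSucc - c p.2 (Fin.last k) *
      c p.1 i.castSucc

theorem val_nxt_inl {R A : Type} [CommRing R] {k : ℕ} (c : A → Fin (k + 1) → R) (a : A)
    (y : Fin k → R) : val (nxt c (Sum.inl a)) y = val (fun i => c a i.castSucc) y := rfl

theorem val_nxt_inr {R A : Type} [CommRing R] {k : ℕ} (c : A → Fin (k + 1) → R) (a b : A)
    (y : Fin k → R) : val (nxt c (Sum.inr (a, b))) y =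
      c a (Fin.last k) * val (fun i => c b i.castSucc) y -
        c b (Fin.last k) * val (fun i => c a i.castSucc) y := by
  simp only [val, nxt, Finset.mul_sum]
  rw [← Finset.sum_sub_distrib]
  exact Finset.sum_congr rfl fun i _ => by ring

/-- two families of functionals carry the same information -/
def SI : (k : ℕ) → {A : Type} → (c c' : A → Fin (k + 1) → ℝ) → Prop
  | 0, _, c, c' => ∀ a, SignType.sign (c a 0) = SignType.sign (c' a 0)
  | k + 1, _, c, c' =>
    (∀ a, SignType.sign (c a (Fin.last (k + 1))) = SignType.sign (c' a (Fin.last (k + 1)))) ∧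
      SI k (nxt c) (nxt c')

theorem SI.symm : ∀ {k : ℕ} {A : Type} {c c' : A → Fin (k + 1) → ℝ}, SI k c c' → SI k c' c
  | 0, _, _, _, h => fun a => (h a).symm
  | _ + 1, _, _, _, h => ⟨fun a => (h.1 a).symm, SI.symm h.2⟩

/-- the one-dimensional lemma -/
theorem fiber {A : Type} [Finite A] (a v a' v' : A → ℝ)
    (h1 : ∀ α, SignType.sign (a α) = SignType.sign (a' α))
    (h2 : ∀ α, SignType.sign (v α) = SignType.sign (v' α))
    (h3 : ∀ α β, SignType.sign (a α * v β - a β * v α) =
      SignType.sign (a' α * v' β - a' β * v' α)) (t : ℝ) :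
    ∃ t' : ℝ, ∀ α, SignType.sign (v α + a α * t) = SignType.sign (v' α + a' α * t') := by
  classical
  have : Fintype A := Fintype.ofFinite A
  have hz : ∀ α, a α = 0 ↔ a' α = 0 := fun α => by
    rw [← sign_eq_zero_iff, h1, sign_eq_zero_iff]
  by_cases hex : ∃ β, a β ≠ 0 ∧ v β + a β * t = 0
  · obtain ⟨β, hβ, hβt⟩ := hex
    have hβ' : a' β ≠ 0 := fun h => hβ ((hz β).mpr h)
    refine ⟨-v' β / a' β, fun α => ?_⟩
    have e1 : a β * (v α + a α * t) = -(a α * v β - a β * v α) := by
      have : a β * t = -v β := by linarith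
      calc a β * (v α + a α * t) = a β * v α + a α * (a β * t) := by ring
        _ = _ := by rw [this]; ring
    have e2 : a' β * (v' α + a' α * (-v' β / a' β)) = -(a' α * v' β - a' β * v' α) := by
      field_simp
      ring
    have e3 : SignType.sign (a β * (v α + a α * t)) =
        SignType.sign (a' β * (v' α + a' α * (-v' β / a' β))) := by
      rw [e1, e2, Left.sign_neg, Left.sign_neg, h3]
    rw [sign_mul, sign_mul, ← h1 β] at e3
    have h4 : SignType.sign (a β) ≠ 0 := by rwa [Ne, sign_eq_zero_iff]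
    have h5 := sign_cancel h4 e3
    rw [h5, ← mul_assoc]
    have h6 : SignType.sign (a β) * SignType.sign (a β) = 1 := by
      generalize SignType.sign (a β) = u at h4 ⊢
      revert u
      decide
    rw [h6, one_mul]
  · push Not at hex
    set ζ : A → ℝ := fun α => -v α / a α with hζ
    set ζ' : A → ℝ := fun α => -v' α / a' α with hζ'
    have hord : ∀ α β, a α ≠ 0 → a β ≠ 0 → ζ α < ζ β → ζ' α < ζ' β := by
      intro α β hα hβ hlt
      have hα' : a' α ≠ 0 := fun h => hα ((hz α).mpr h)
      have hβ' : a' β ≠ 0 := fun h => hβ ((hz β).mpr h)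
      have e1 : (ζ β - ζ α) * (a α * a β) = -(a α * v β - a β * v α) := by
        simp only [hζ]
        field_simp
        ring
      have e2 : (ζ' β - ζ' α) * (a' α * a' β) = -(a' α * v' β - a' β * v' α) := by
        simp only [hζ']
        field_simp
        ring
      have e3 : SignType.sign ((ζ β - ζ α) * (a α * a β)) =
          SignType.sign ((ζ' β - ζ' α) * (a' α * a' β)) := by
        rw [e1, e2, Left.sign_neg, Left.sign_neg, h3]
      rw [sign_mul, sign_mul, sign_mul, sign_mul, ← h1 α, ← h1 β,
        sign_pos (sub_pos.mpr hlt)] at e3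
      have h4 : SignType.sign (a α) ≠ 0 := by rwa [Ne, sign_eq_zero_iff]
      have h5 : SignType.sign (a β) ≠ 0 := by rwa [Ne, sign_eq_zero_iff]
      have h6 : SignType.sign (ζ' β - ζ' α) = 1 := by
        generalize SignType.sign (ζ' β - ζ' α) = w at e3 ⊢
        generalize SignType.sign (a α) = u at e3 h4
        generalize SignType.sign (a β) = u' at e3 h5
        revert w u u'
        decide
      rw [sign_eq_one_iff] at h6
      linarith
    set lo : Finset ℝ := (Finset.univ.filter (fun α => a α ≠ 0 ∧ ζ α < t)).image ζ' with hlo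
    set hi : Finset ℝ := (Finset.univ.filter (fun α => a α ≠ 0 ∧ t < ζ α)).image ζ' with hhi
    obtain ⟨t', ht1, ht2⟩ := Order.exists_between_finsets (α := ℝ) lo hi (by
      intro x hx y hy
      obtain ⟨α, hα, rfl⟩ := Finset.mem_image.mp hx
      obtain ⟨β, hβ, rfl⟩ := Finset.mem_image.mp hy
      obtain ⟨_, hα1, hα2⟩ := Finset.mem_filter.mp hα
      obtain ⟨_, hβ1, hβ2⟩ := Finset.mem_filter.mp hβ
      exact hord α β hα1 hβ1 (hα2.trans hβ2))
    refine ⟨t', fun α => ?_⟩
    by_cases hα : a α = 0
    · rw [hα, (hz α).mp hα, zero_mul, zero_mul, add_zero, add_zero, h2]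
    · have hα' : a' α ≠ 0 := fun h => hα ((hz α).mpr h)
      have e1 : v α + a α * t = a α * (t - ζ α) := by
        simp only [hζ]
        field_simp
        ring
      have e2 : v' α + a' α * t' = a' α * (t' - ζ' α) := by
        simp only [hζ']
        field_simp
        ring
      rw [e1, e2, sign_mul, sign_mul, h1]
      congr 1
      rcases lt_trichotomy (ζ α) t with hlt | heq | hgt
      · have := ht1 (ζ' α) (Finset.mem_image.mpr ⟨α, by simp [hα, hlt], rfl⟩)
        rw [sign_pos (sub_pos.mpr hlt), sign_pos (sub_pos.mpr this)]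
      · exfalso
        apply hex α hα
        rw [e1, heq, sub_self, mul_zero]
      · have := ht2 (ζ' α) (Finset.mem_image.mpr ⟨α, by simp [hα, hgt], rfl⟩)
        rw [sign_neg (sub_neg.mpr hgt), sign_neg (sub_neg.mpr this)]

/-- realizability of sign vectors -/
theorem SI.realize : ∀ {k : ℕ} {A : Type} [Finite A] {c c' : A → Fin (k + 1) → ℝ}, SI k c c' →
    ∀ x : Fin (k + 1) → ℝ, x 0 = 1 → ∃ x' : Fin (k + 1) → ℝ, x' 0 = 1 ∧
      ∀ α, SignType.sign (val (c α) x) = SignType.sign (val (c' α) x')
  | 0, A, _, c, c', h, x, hx => by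
    refine ⟨x, hx, fun α => ?_⟩
    have h1 := h α
    simpa [val, hx] using h1
  | k + 1, A, _, c, c', h, x, hx => by
    obtain ⟨y', hy0, hy⟩ := SI.realize h.2 (fun i => x i.castSucc) (by simpa using hx)
    obtain ⟨t', ht⟩ := fiber (fun α => c α (Fin.last (k + 1)))
      (fun α => val (fun i => c α i.castSucc) (fun i => x i.castSucc))
      (fun α => c' α (Fin.last (k + 1)))
      (fun α => val (fun i => c' α i.castSucc) y')
      h.1 (fun α => hy (Sum.inl α))
      (fun α β => by
        have := hy (Sum.inr (α, β))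
        rwa [val_nxt_inr, val_nxt_inr] at this) (x (Fin.last (k + 1)))
    refine ⟨Fin.snoc (α := fun _ => ℝ) y' t', ?_, fun α => ?_⟩
    · have : (0 : Fin (k + 1 + 1)) = Fin.castSucc 0 := rfl
      rw [this, Fin.snoc_castSucc, hy0]
    · rw [val_succ (c α) x, val_succ (c' α) (Fin.snoc (α := fun _ => ℝ) y' t')]
      simp only [Fin.snoc_castSucc, Fin.snoc_last]
      exact ht α

end Pool.Agent.Lib_helper23.PL
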