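import Pool.Agent.Lib_helper23.PL.Bez

/-!
# A Warren-type bound for the number of sign vectors
-/

namespace Pool.Agent.Lib_helper23.PL

open MvPolynomial

section
variable {σ : Type*} [Fintype σ] [DecidableEq σ]

omit [Fintype σ] in
theorem hasDerivAt_eval_update (p : MvPolynomial σ ℝ) (x : σ → ℝ) (i : σ) :
    HasDerivAt (fun t => eval (Function.update x i t) p) (eval x (pderiv i p)) (x i) := by
  induction p using MvPolynomial.induction_on with
  | C a => simpa using hasDerivAt_const (x i) a
  | add p q hp hq =>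
    have := hp.add hq
    rw [← map_add, ← map_add] at this
    refine this.congr_of_eventuallyEq (Filter.Eventually.of_forall fun t => ?_)
    simp
  | mul_X p j hp =>
    have hX : HasDerivAt (fun t => Function.update x i t j) (if j = i then (1 : ℝ) else 0) (x i) := by
      by_cases hj : j = i
      · subst hj
        have := hasDerivAt_id (x j)
        rw [if_pos rfl]
        refine this.congr_of_eventuallyEq (Filter.Eventually.of_forall fun t => ?_)
        simp
      · have := hasDerivAt_const (x i) (x j)
        rw [if_neg hj]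
        refine this.congr_of_eventuallyEq (Filter.Eventually.of_forall fun t => ?_)
        simp [hj]
    have := hp.mul hX
    simp only [Function.update_eq_self] at this
    have h2 := this.congr_of_eventuallyEq (f₁ := fun t => eval (Function.update x i t) (p * X j))
      (Filter.Eventually.of_forall fun t => by simp)
    refine h2.congr_deriv ?_
    rw [Derivation.leibniz, pderiv_X]
    by_cases hj : j = i
    · subst hj
      simp
      ring
    · simp [hj, eq_comm]
      ring

omit [DecidableEq σ] in
theorem totalDegree_pderiv_le (p : MvPolynomial σ ℝ) (i : σ) :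
    (pderiv i p).totalDegree ≤ p.totalDegree := by
  classical
  unfold totalDegree
  apply Finset.sup_le
  intro m hm
  rw [mem_support_iff, coeff_pderiv] at hm
  have h1 : coeff (m + Finsupp.single i 1) p ≠ 0 := left_ne_zero_of_mul hm
  have h2 := Finset.le_sup (f := fun s : σ →₀ ℕ => s.sum fun _ e => e) (mem_support_iff.mpr h1)
  refine le_trans ?_ h2
  rw [Finsupp.sum_fintype _ _ (by simp), Finsupp.sum_fintype _ _ (by simp)]
  apply Finset.sum_le_sum
  intro k _
  simp

omit [Fintype σ] in
/-- at an interior maximum of a polynomial on a set all the derivatives along the axes vanish -/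
theorem pderiv_zero_of_max (p : MvPolynomial σ ℝ) (x : σ → ℝ) (i : σ)
    (h : ∀ᶠ y in nhds x, eval y p ≤ eval x p) : eval x (pderiv i p) = 0 := by
  have hc : ContinuousAt (fun t : ℝ => Function.update x i t) (x i) :=
    (continuous_const.update i continuous_id).continuousAt
  have hx : Function.update x i (x i) = x := Function.update_eq_self i x
  have hmax : IsLocalMax (fun t => eval (Function.update x i t) p) (x i) := by
    have h2 : ∀ᶠ y in nhds (Function.update x i (x i)), eval y p ≤ eval x p := by rwa [hx]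
    have := hc.eventually h2
    filter_upwards [this] with t ht
    simpa using ht
  exact hmax.hasDerivAt_eq_zero (hasDerivAt_eval_update p x i)

omit [Fintype σ] [DecidableEq σ] in
theorem exists_small (J : Type*) [Fintype J] (f : J → MvPolynomial σ ℝ) (W : Finset (σ → ℝ)) :
    ∃ δ : ℝ, 0 < δ ∧ ∀ w ∈ W, ∀ j, eval w (f j) ≠ 0 → δ < |eval w (f j)| := by
  have h : ∀ᶠ δ in nhdsWithin (0 : ℝ) (Set.Ioi 0),
      0 < δ ∧ ∀ w ∈ W, ∀ j, eval w (f j) ≠ 0 → δ < |eval w (f j)| := by
    refine Filter.Eventually.and self_mem_nhdsWithin ?_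
    rw [Filter.eventually_all_finset]
    intro w _
    rw [Filter.eventually_all]
    intro j
    by_cases hz : eval w (f j) = 0
    · exact Filter.Eventually.of_forall fun _ hh => absurd hz hh
    · filter_upwards [Ioo_mem_nhdsGT (abs_pos.mpr hz)] with δ hδ _
      exact hδ.2
  exact h.exists

theorem eval_pderiv_sum (x : σ → ℝ) (i : σ) (E : ℕ) :
    eval x (pderiv i (∑ k, X k ^ (E + 1) : MvPolynomial σ ℝ)) = (E + 1) * x i ^ E := by
  rw [map_sum, map_sum, Finset.sum_eq_single i]
  · rw [Derivation.leibniz_pow, pderiv_X]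
    simp
  · intro b _ hb
    rw [Derivation.leibniz_pow, pderiv_X]
    simp [Ne.symm hb]
  · intro hb
    exact absurd (Finset.mem_univ i) hb

theorem eval_pderiv_pert (G : MvPolynomial σ ℝ) (η : ℝ) (x : σ → ℝ) (i : σ) (E : ℕ) :
    eval x (pderiv i (G + C η * ∑ k, X k ^ (E + 1))) =
      eval x (pderiv i G) + η * (E + 1) * x i ^ E := by
  rw [map_add, pderiv_C_mul, map_add, map_mul, eval_C, eval_pderiv_sum]
  ring

/-- Warren-type bound -/
theorem warren {J : Type*} [Fintype J] (f : J → MvPolynomial σ ℝ) (D : ℕ)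
    (hD : ∀ j, (f j).totalDegree ≤ D) (W : Finset (σ → ℝ))
    (hW : ∀ w ∈ W, ∀ w' ∈ W,
      (∀ j, SignType.sign (eval w (f j)) = SignType.sign (eval w' (f j))) → w = w') :
    W.card ≤ (4 * Fintype.card J * D + 3) ^ Fintype.card σ := by
  classical
  rcases W.eq_empty_or_nonempty with hE | hne
  · subst hE
    simp
  obtain ⟨δ, hδ, hsmall⟩ := exists_small J f W
  -- radius
  set ρ : ℝ := 1 + ∑ w ∈ W, ∑ i, w i ^ 2 with hρ
  have hρw : ∀ w ∈ W, ∑ i, w i ^ 2 < ρ := by
    intro w hw
    have : ∑ i, w i ^ 2 ≤ ∑ w ∈ W, ∑ i, w i ^ 2 :=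
      Finset.single_le_sum (f := fun w : σ → ℝ => ∑ i, w i ^ 2)
        (fun w _ => Finset.sum_nonneg fun i _ => sq_nonneg _) hw
    linarith
  have hρ1 : 1 ≤ ρ := by
    have : 0 ≤ ∑ w ∈ W, ∑ i, w i ^ 2 :=
      Finset.sum_nonneg fun w _ => Finset.sum_nonneg fun i _ => sq_nonneg _
    linarith
  set E : ℕ := 4 * Fintype.card J * D + 3 with hEdef
  -- the polynomial
  set G : MvPolynomial σ ℝ := (C ρ - ∑ i, X i ^ 2) * ∏ j, (f j ^ 2 - C (δ ^ 2)) ^ 2 with hG
  have hGeval : ∀ x, eval x G = (ρ - ∑ i, x i ^ 2) * ∏ j, (eval x (f j) ^ 2 - δ ^ 2) ^ 2 := by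
    intro x
    rw [hG, map_mul, map_prod]
    simp
  have hGdeg : G.totalDegree ≤ 4 * Fintype.card J * D + 2 := by
    have h1 : (C ρ - ∑ i, X i ^ 2 : MvPolynomial σ ℝ).totalDegree ≤ 2 := by
      refine (totalDegree_sub _ _).trans (max_le ?_ ?_)
      · simp
      · refine totalDegree_finsetSum_le fun i _ => ?_
        simp
    have h2 : ∀ j, ((f j ^ 2 - C (δ ^ 2)) ^ 2).totalDegree ≤ 4 * D := by
      intro j
      refine (totalDegree_pow _ _).trans ?_
      have : (f j ^ 2 - C (δ ^ 2)).totalDegree ≤ 2 * D := by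
        refine (totalDegree_sub _ _).trans (max_le ?_ ?_)
        · exact (totalDegree_pow _ _).trans (Nat.mul_le_mul_left 2 (hD j))
        · rw [totalDegree_C]
          exact Nat.zero_le _
      omega
    have h3 : (∏ j, (f j ^ 2 - C (δ ^ 2)) ^ 2).totalDegree ≤ Fintype.card J * (4 * D) := by
      refine (totalDegree_finsetProd _ _).trans ?_
      refine (Finset.sum_le_sum fun j _ => h2 j).trans ?_
      simp
    refine (totalDegree_mul _ _).trans ?_
    calc _ ≤ 2 + Fintype.card J * (4 * D) := Nat.add_le_add h1 h3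
      _ = 4 * Fintype.card J * D + 2 := by ring
  have hGw : ∀ w ∈ W, 0 < eval w G := by
    intro w hw
    rw [hGeval]
    apply mul_pos
    · have := hρw w hw
      linarith
    · apply Finset.prod_pos
      intro j _
      have : eval w (f j) ^ 2 - δ ^ 2 ≠ 0 := by
        by_cases hz : eval w (f j) = 0
        · rw [hz]
          have : 0 < δ ^ 2 := by positivity
          intro hh
          linarith
        · have h1 := hsmall w hw j hz
          have h2 : δ ^ 2 < |eval w (f j)| ^ 2 := by
            apply pow_lt_pow_left₀ h1 hδ.le (by norm_num)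
          rw [sq_abs] at h2
          intro hh
          linarith
      positivity
  obtain ⟨w₀, hw₀, hmin⟩ := Finset.exists_min_image W (fun w => eval w G) hne
  set m : ℝ := eval w₀ G with hm
  have hmpos : 0 < m := hGw w₀ hw₀
  -- the ball
  set K : Set (σ → ℝ) := {x | ∑ i, x i ^ 2 ≤ ρ} with hK
  have hKcl : IsClosed K := isClosed_le (by fun_prop) continuous_const
  have hKbd : Bornology.IsBounded K := by
    apply (Metric.isBounded_closedBall (x := (0 : σ → ℝ)) (r := ρ)).subset
    intro x hx
    rw [mem_closedBall_zero_iff, pi_norm_le_iff_of_nonneg (by linarith)]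
    intro i
    have h1 : x i ^ 2 ≤ ∑ i, x i ^ 2 :=
      Finset.single_le_sum (f := fun i => x i ^ 2) (fun i _ => sq_nonneg _) (Finset.mem_univ i)
    have h2 : ∑ i, x i ^ 2 ≤ ρ := hx
    rw [Real.norm_eq_abs]
    apply abs_le_of_sq_le_sq _ (by linarith)
    nlinarith
  have hKcomp : IsCompact K := Metric.isCompact_of_isClosed_isBounded hKcl hKbd
  -- the perturbation
  set S : MvPolynomial σ ℝ := ∑ i, X i ^ (E + 1) with hS
  have hcS : Continuous (fun x => eval x S) := MvPolynomial.continuous_eval S
  have hcG : Continuous (fun x => eval x G) := MvPolynomial.continuous_eval G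
  obtain ⟨B, hB⟩ : ∃ B, ∀ x ∈ K, |eval x S| ≤ B := by
    obtain ⟨B, hB⟩ := hKcomp.exists_bound_of_continuousOn hcS.continuousOn
    exact ⟨B, fun x hx => by simpa using hB x hx⟩
  have hB0 : 0 ≤ B := by
    have h1 : w₀ ∈ K := (hρw w₀ hw₀).le
    exact (abs_nonneg _).trans (hB w₀ h1)
  set η : ℝ := m / (3 * (B + 1)) with hη
  have hηpos : 0 < η := by positivity
  have hηS : ∀ x ∈ K, |η * eval x S| < m / 2 := by
    intro x hx
    rw [abs_mul, abs_of_pos hηpos]
    have h1 := hB x hx
    have h2 : η * |eval x S| ≤ η * B := mul_le_mul_of_nonneg_left h1 hηpos.le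
    have h3 : η * (B + 1) = m / 3 := by
      rw [hη]
      field_simp
    nlinarith
  set Φ : MvPolynomial σ ℝ := G + C η * S with hΦ
  have hcΦ : Continuous (fun x => eval x Φ) := MvPolynomial.continuous_eval Φ
  have hΦeval : ∀ x, eval x Φ = eval x G + η * eval x S := by
    intro x
    simp [hΦ]
  -- the zero in each region
  have hex : ∀ w ∈ W, ∃ x : σ → ℝ,
      (∀ j, 0 < (eval w (f j) - δ) * (eval x (f j) - δ)) ∧
      (∀ j, 0 < (eval w (f j) + δ) * (eval x (f j) + δ)) ∧
      ∀ i, eval x (pderiv i Φ) = 0 := by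
    intro w hw
    set Kw : Set (σ → ℝ) := K ∩ {x | (∀ j, 0 ≤ (eval w (f j) - δ) * (eval x (f j) - δ)) ∧
      (∀ j, 0 ≤ (eval w (f j) + δ) * (eval x (f j) + δ))} with hKw
    have hcf : ∀ j, Continuous (fun x => eval x (f j)) := fun j =>
      MvPolynomial.continuous_eval (f j)
    have hcl : IsClosed {x : σ → ℝ | (∀ j, 0 ≤ (eval w (f j) - δ) * (eval x (f j) - δ)) ∧
      (∀ j, 0 ≤ (eval w (f j) + δ) * (eval x (f j) + δ))} := by
      rw [Set.ofPred_and]
      apply IsClosed.inter
      · rw [Set.ofPred_forall]
        exact isClosed_iInter fun j => isClosed_le continuous_const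
          (continuous_const.mul ((hcf j).sub continuous_const))
      · rw [Set.ofPred_forall]
        exact isClosed_iInter fun j => isClosed_le continuous_const
          (continuous_const.mul ((hcf j).add continuous_const))
    have hKwc : IsCompact Kw := hKcomp.inter_right hcl
    have hwKw : w ∈ Kw := by
      refine ⟨(hρw w hw).le, fun j => mul_self_nonneg _, fun j => mul_self_nonneg _⟩
    obtain ⟨x, hx, hxmax⟩ := hKwc.exists_isMaxOn ⟨w, hwKw⟩ hcΦ.continuousOn
    have hΦx : m / 2 < eval x Φ := by
      have h1 : eval w Φ ≤ eval x Φ := hxmax hwKw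
      have h2 := abs_lt.mp (hηS w hwKw.1)
      have h3 : m ≤ eval w G := hmin w hw
      rw [hΦeval w] at h1
      linarith [h2.1]
    have hGx : 0 < eval x G := by
      have h2 := abs_lt.mp (hηS x hx.1)
      rw [hΦeval x] at hΦx
      linarith [h2.2]
    have hx1 : ∑ i, x i ^ 2 < ρ := by
      refine lt_of_le_of_ne hx.1 fun hh => ?_
      rw [hGeval, hh] at hGx
      simp at hGx
    have hx2 : ∀ j, eval x (f j) ^ 2 - δ ^ 2 ≠ 0 := by
      intro j hh
      rw [hGeval, Finset.prod_eq_zero (Finset.mem_univ j) (by rw [hh]; norm_num)] at hGx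
      simp at hGx
    have hw2 : ∀ j, eval w (f j) ^ 2 - δ ^ 2 ≠ 0 := by
      intro j hh
      have hGw' := hGw w hw
      rw [hGeval, Finset.prod_eq_zero (Finset.mem_univ j) (by rw [hh]; norm_num)] at hGw'
      simp at hGw'
    have hfac : ∀ a : ℝ, a ^ 2 - δ ^ 2 = (a - δ) * (a + δ) := fun a => by ring
    have hx3 : ∀ j, 0 < (eval w (f j) - δ) * (eval x (f j) - δ) := by
      intro j
      refine lt_of_le_of_ne (hx.2.1 j) (Ne.symm ?_)
      have h1 := hx2 j
      have h2 := hw2 j
      rw [hfac] at h1 h2
      exact mul_ne_zero (left_ne_zero_of_mul h2) (left_ne_zero_of_mul h1)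
    have hx4 : ∀ j, 0 < (eval w (f j) + δ) * (eval x (f j) + δ) := by
      intro j
      refine lt_of_le_of_ne (hx.2.2 j) (Ne.symm ?_)
      have h1 := hx2 j
      have h2 := hw2 j
      rw [hfac] at h1 h2
      exact mul_ne_zero (right_ne_zero_of_mul h2) (right_ne_zero_of_mul h1)
    refine ⟨x, hx3, hx4, fun i => ?_⟩
    apply pderiv_zero_of_max
    have e1 : ∀ᶠ y in nhds x, ∑ i, y i ^ 2 < ρ :=
      (continuous_finsetSum _ fun i _ => ((continuous_apply i).pow 2)).continuousAt.eventually_lt
        continuousAt_const hx1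
    have e2 : ∀ᶠ y in nhds x, ∀ j, 0 < (eval w (f j) - δ) * (eval y (f j) - δ) := by
      rw [Filter.eventually_all]
      intro j
      exact continuousAt_const.eventually_lt
        (continuous_const.mul ((hcf j).sub continuous_const)).continuousAt (hx3 j)
    have e3 : ∀ᶠ y in nhds x, ∀ j, 0 < (eval w (f j) + δ) * (eval y (f j) + δ) := by
      rw [Filter.eventually_all]
      intro j
      exact continuousAt_const.eventually_lt
        (continuous_const.mul ((hcf j).add continuous_const)).continuousAt (hx4 j)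
    filter_upwards [e1, e2, e3] with y h1 h2 h3
    exact hxmax ⟨h1.le, fun j => (h2 j).le, fun j => (h3 j).le⟩
  choose! z hz1 hz2 hz3 using hex
  have hinj : Set.InjOn z W := by
    intro w hw w' hw' hzz
    apply hW w hw w' hw'
    intro j
    have a1 := hz1 w hw j
    have a2 := hz2 w hw j
    have b1 := hz1 w' hw' j
    have b2 := hz2 w' hw' j
    rw [← hzz] at b1 b2
    have s1 := hsmall w hw j
    have s2 := hsmall w' hw' j
    set u := eval w (f j)
    set v := eval w' (f j)
    set t := eval (z w) (f j)
    have p1 : 0 < (u - δ) * (v - δ) := by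
      have : 0 < ((u - δ) * (t - δ)) * ((v - δ) * (t - δ)) := mul_pos a1 b1
      have h3 : ((u - δ) * (t - δ)) * ((v - δ) * (t - δ)) = ((u - δ) * (v - δ)) * (t - δ) ^ 2 := by
        ring
      rw [h3] at this
      exact pos_of_mul_pos_left this (sq_nonneg _)
    have p2 : 0 < (u + δ) * (v + δ) := by
      have : 0 < ((u + δ) * (t + δ)) * ((v + δ) * (t + δ)) := mul_pos a2 b2
      have h3 : ((u + δ) * (t + δ)) * ((v + δ) * (t + δ)) = ((u + δ) * (v + δ)) * (t + δ) ^ 2 := by
        ring
      rw [h3] at this
      exact pos_of_mul_pos_left this (sq_nonneg _)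
    rcases lt_trichotomy u 0 with hu | hu | hu
    · have h1 := s1 hu.ne
      rw [abs_of_neg hu] at h1
      have h2 : v + δ < 0 := by
        by_contra hcon
        push Not at hcon
        nlinarith
      rw [sign_neg hu, sign_neg (by linarith)]
    · rw [hu] at p1 p2
      have h2 : v - δ < 0 := by
        by_contra hcon
        push Not at hcon
        nlinarith
      have h3 : 0 < v + δ := by
        by_contra hcon
        push Not at hcon
        nlinarith
      have hv : v = 0 := by
        by_contra hcon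
        have h4 := s2 hcon
        have h5 : |v| < δ := abs_lt.mpr ⟨by linarith, by linarith⟩
        linarith
      rw [hu, hv]
    · have h1 := s1 hu.ne'
      rw [abs_of_pos hu] at h1
      have h2 : 0 < v - δ := by
        by_contra hcon
        push Not at hcon
        nlinarith
      rw [sign_pos hu, sign_pos (by linarith)]
  have hcard : (W.image z).card = W.card := Finset.card_image_of_injOn hinj
  rw [← hcard]
  apply weak_bezout (W.image z) (η * (E + 1)) (by positivity) E (fun i => pderiv i G)
  · intro i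
    have := totalDegree_pderiv_le G i
    omega
  · intro y hy i
    obtain ⟨w, hw, rfl⟩ := Finset.mem_image.mp hy
    have := hz3 w hw i
    rw [hΦ, hS, eval_pderiv_pert] at this
    exact this

end

end Pool.Agent.Lib_helper23.PL
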