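import Pool.Agent.Lib_helper23.PL.Elim
import Pool.Agent.Lib_helper23.PL.Warren

/-!
# Locating in an arrangement, and the polynomials describing the information
-/

namespace Pool.Agent.Lib_helper23.PL

/-- coefficientwise evaluation -/
noncomputable def evc {ι A : Type} {k : ℕ} (e : A → Fin k → Expr ι) (x : ι → ℝ) :
    A → Fin k → ℝ := fun a i => (e a i).eval x

/-- expressions for `nxt` -/
def nxtE {ι A : Type} {k : ℕ} (c : A → Fin (k + 1) → Expr ι) : A ⊕ A × A → Fin k → Expr ι
  | Sum.inl a => fun i => c a i.castSucc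
  | Sum.inr p => fun i => .sub (.mul (c p.1 (Fin.last k)) (c p.2 i.castSucc))
      (.mul (c p.2 (Fin.last k)) (c p.1 i.castSucc))

theorem evc_nxtE {ι A : Type} {k : ℕ} (e : A → Fin (k + 1) → Expr ι) (x : ι → ℝ) :
    evc (nxtE e) x = nxt (evc e x) := by
  funext a i
  rcases a with a | ⟨a, b⟩
  · rfl
  · rfl

theorem cost_nxtE {ι A : Type} {k : ℕ} (e : A → Fin (k + 1) → Expr ι) (b : ℕ)
    (hb : ∀ a i, (e a i).cost ≤ b) (a : A ⊕ A × A) (i : Fin k) : (nxtE e a i).cost ≤ 4 * b + 3 := by
  rcases a with a | ⟨a, c⟩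
  · have := hb a i.castSucc
    simp only [nxtE]
    omega
  · simp only [nxtE, Expr.cost]
    have h1 := hb a (Fin.last k)
    have h2 := hb c (Fin.last k)
    have h3 := hb a i.castSucc
    have h4 := hb c i.castSucc
    omega

theorem exists_valE {ι : Type} (b : ℕ) : ∀ (k : ℕ) (u y : Fin k → Expr ι)
    (_ : ∀ i, (u i).cost ≤ b) (_ : ∀ i, (y i).cost ≤ b),
    ∃ E : Expr ι, E.cost ≤ k * (2 * b + 2) ∧
      ∀ x, E.eval x = val (fun i => (u i).eval x) (fun i => (y i).eval x)
  | 0, _, _, _, _ => ⟨.zero, by simp [Expr.cost], fun x => by simp [Expr.eval, val]⟩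
  | k + 1, u, y, hu, hy => by
    obtain ⟨E, hE1, hE2⟩ := exists_valE b k (fun i => u i.castSucc) (fun i => y i.castSucc)
      (fun i => hu _) (fun i => hy _)
    refine ⟨.add E (.mul (u (Fin.last k)) (y (Fin.last k))), ?_, fun x => ?_⟩
    · simp only [Expr.cost]
      have h1 := hu (Fin.last k)
      have h2 := hy (Fin.last k)
      rw [Nat.add_mul]
      omega
    · rw [val_succ]
      simp only [Expr.eval]
      rw [hE2]

/-- locating in an arrangement of hyperplanes -/
theorem level (k : ℕ) : ∀ b : ℕ, ∃ B : ℕ, ∀ (ι A α : Type) [Fintype A]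
    (e : A → Fin (k + 1) → Expr ι) (y : Fin (k + 1) → Expr ι)
    (_ : ∀ a i, (e a i).cost ≤ b) (_ : ∀ i, (y i).cost ≤ b) (L : ℕ) (_ : Fintype.card A < 2 ^ L)
    (f : (ι → ℝ) → α) (t₀ : ℕ) (I : Set (ι → ℝ))
    (_ : ∀ x ∈ I, ∀ x' ∈ I, SI k (evc e x) (evc e x'))
    (_ : ∀ x ∈ I, (y 0).eval x = 1)
    (_ : ∀ s : A → SignType, Loc (I ∩ {x | ∀ a,
      SignType.sign (val (evc e x a) (fun i => (y i).eval x)) = s a}) f t₀),
    Loc I f (t₀ + B * L) := by
  induction k with
  | zero =>
    intro b
    refine ⟨0, fun ι A α _ e y _ _ L _ f t₀ I hI hy hc => ?_⟩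
    rcases I.eq_empty_or_nonempty with hE | ⟨x₀, hx₀⟩
    · subst hE
      refine (hc 0).mono (Set.empty_subset _) (by omega)
    · refine (hc (fun a => SignType.sign (evc e x₀ a 0))).mono (fun x hx => ⟨hx, fun a => ?_⟩)
        (by omega)
      have h1 : SignType.sign (evc e x a 0) = SignType.sign (evc e x₀ a 0) := hI x hx x₀ hx₀ a
      rw [← h1]
      simp [val, hy x hx]
  | succ k ih =>
    intro b
    obtain ⟨B, hB⟩ := ih (4 * b + 3)
    refine ⟨2 * B + ((k + 2) * (2 * b + 2) + 2), fun ι A α _ e y he hyb L hL f t₀ I hI hy hc => ?_⟩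
    classical
    have hval : ∀ a : A, ∃ E : Expr ι, E.cost ≤ (k + 2) * (2 * b + 2) ∧
        ∀ x, E.eval x = val (evc e x a) (fun i => (y i).eval x) := fun a =>
      exists_valE b (k + 2) (e a) y (he a) hyb
    choose E hE1 hE2 using hval
    have hcard : Fintype.card (A ⊕ A × A) < 2 ^ (2 * L) := by
      rw [Fintype.card_sum, Fintype.card_prod]
      have h1 : Fintype.card A + 1 ≤ 2 ^ L := hL
      calc Fintype.card A + Fintype.card A * Fintype.card A
          < (Fintype.card A + 1) * (Fintype.card A + 1) := by ring_nf; omega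
        _ ≤ 2 ^ L * 2 ^ L := Nat.mul_le_mul h1 h1
        _ = 2 ^ (2 * L) := by rw [two_mul, pow_add]
    have hstep := hB ι (A ⊕ A × A) α (nxtE e) (fun i => y i.castSucc) (cost_nxtE e b he)
      (fun i => (hyb _).trans (by omega)) (2 * L) hcard f
      (t₀ + L * ((k + 2) * (2 * b + 2) + 2)) I
      (fun x hx x' hx' => by
        rw [evc_nxtE, evc_nxtE]
        exact (hI x hx x' hx').2)
      (fun x hx => hy x hx)
    refine (hstep ?_).mono subset_rfl ?_
    swap
    · apply le_of_eq
      ring
    intro s'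
    set I' : Set (ι → ℝ) := I ∩ {x | ∀ a, SignType.sign (val (evc (nxtE e) x a)
      (fun i => (y i.castSucc).eval x)) = s' a} with hI'
    rcases I'.eq_empty_or_nonempty with hEm | ⟨x₀, hx₀⟩
    · rw [hEm]
      exact (hc 0).mono (Set.empty_subset _) (Nat.le_add_right _ _)
    · -- reference data
      set c₀ := evc e x₀ with hc₀
      set y₀ : Fin (k + 1) → ℝ := fun i => (y i.castSucc).eval x₀ with hy₀
      set lst : A → ℝ := fun a => c₀ a (Fin.last (k + 1)) with hlst
      set v₀ : A → ℝ := fun a => val (fun i => c₀ a i.castSucc) y₀ with hv₀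
      have hpt : ∀ x ∈ I', ∃ t' : ℝ, ∀ a,
          SignType.sign ((E a).eval x) = SignType.sign (v₀ a + lst a * t') := by
        intro x hx
        obtain ⟨t', ht'⟩ := fiber (fun a => evc e x a (Fin.last (k + 1)))
          (fun a => val (fun i => evc e x a i.castSucc) (fun i => (y i.castSucc).eval x))
          lst v₀ (hI x hx.1 x₀ hx₀.1).1
          (fun a => by
            have g1 := hx.2 (Sum.inl a)
            have g2 := hx₀.2 (Sum.inl a)
            rw [evc_nxtE] at g1 g2
            exact g1.trans g2.symm)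
          (fun a a' => by
            have g1 := hx.2 (Sum.inr (a, a'))
            have g2 := hx₀.2 (Sum.inr (a, a'))
            rw [evc_nxtE, val_nxt_inr] at g1 g2
            exact g1.trans g2.symm) ((y (Fin.last (k + 1))).eval x)
        refine ⟨t', fun a => ?_⟩
        rw [hE2, ← ht', val_succ]
      set S : Finset A := Finset.univ.filter (fun a => lst a ≠ 0) with hS
      have hScard : S.card < 2 ^ L := lt_of_le_of_lt (Finset.card_le_univ S) hL
      apply search (ι := ι) E ((k + 2) * (2 * b + 2)) hE1 (fun a => -v₀ a / lst a)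
        (fun a => SignType.sign (lst a)) L S hScard
      · intro a ha
        have := (Finset.mem_filter.mp ha).2
        rwa [Ne, sign_eq_zero_iff]
      · intro x hx
        obtain ⟨t', ht'⟩ := hpt x hx
        refine ⟨t', fun a ha => ?_⟩
        have hne := (Finset.mem_filter.mp ha).2
        rw [ht', ← sign_mul]
        congr 1
        field_simp
        ring
      · intro s
        refine (hc (fun a => if lst a ≠ 0 then s a else s' (Sum.inl a))).mono ?_ le_rfl
        intro x hx
        refine ⟨hx.1.1, fun a => ?_⟩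
        rw [← hE2]
        by_cases hne : lst a ≠ 0
        · rw [if_pos hne]
          exact hx.2 a (Finset.mem_filter.mpr ⟨Finset.mem_univ a, hne⟩)
        · rw [if_neg hne]
          have g1 := hx.1.2 (Sum.inl a)
          have g3 := (hI x hx.1.1 x₀ hx₀.1).1 a
          have hz : evc e x a (Fin.last (k + 1)) = 0 := by
            push Not at hne
            have g4 : SignType.sign (c₀ a (Fin.last (k + 1))) = 0 := by
              rw [sign_eq_zero_iff]; exact hne
            rw [← hc₀, g4, sign_eq_zero_iff] at g3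
            exact g3
          rw [← g1, hE2, val_succ, hz, zero_mul, add_zero]
          rfl

/-- the polynomial of an expression -/
noncomputable def Expr.toPoly {ι : Type} : Expr ι → MvPolynomial ι ℝ
  | .var i => MvPolynomial.X i
  | .zero => 0
  | .one => 1
  | .add e f => e.toPoly + f.toPoly
  | .sub e f => e.toPoly - f.toPoly
  | .mul e f => e.toPoly * f.toPoly

theorem Expr.eval_toPoly {ι : Type} (x : ι → ℝ) : ∀ e : Expr ι,
    MvPolynomial.eval x e.toPoly = e.eval x
  | .var i => by simp [toPoly, eval]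
  | .zero => by simp [toPoly, eval]
  | .one => by simp [toPoly, eval]
  | .add e f => by simp [toPoly, eval, e.eval_toPoly, f.eval_toPoly]
  | .sub e f => by simp [toPoly, eval, e.eval_toPoly, f.eval_toPoly]
  | .mul e f => by simp [toPoly, eval, e.eval_toPoly, f.eval_toPoly]

theorem Expr.degree_toPoly {ι : Type} : ∀ e : Expr ι, e.toPoly.totalDegree ≤ e.cost + 1
  | .var i => by simp [toPoly, cost]
  | .zero => by simp [toPoly]
  | .one => by simp [toPoly]
  | .add e f => by
    have h1 := e.degree_toPoly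
    have h2 := f.degree_toPoly
    refine (MvPolynomial.totalDegree_add _ _).trans ?_
    simp only [cost]
    omega
  | .sub e f => by
    have h1 := e.degree_toPoly
    have h2 := f.degree_toPoly
    refine (MvPolynomial.totalDegree_sub _ _).trans ?_
    simp only [cost]
    omega
  | .mul e f => by
    have h1 := e.degree_toPoly
    have h2 := f.degree_toPoly
    refine (MvPolynomial.totalDegree_mul _ _).trans ?_
    simp only [cost]
    omega

/-- the information is given by the signs of few polynomials of bounded degree -/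
theorem info (k : ℕ) : ∀ b : ℕ, ∃ M B : ℕ, ∀ (ι A : Type) [Fintype A]
    (e : A → Fin (k + 1) → Expr ι) (_ : ∀ a i, (e a i).cost ≤ b),
    ∃ (J : Type) (_ : Fintype J) (g : J → Expr ι),
      Fintype.card J ≤ (Fintype.card A + 2) ^ M ∧ (∀ j, (g j).cost ≤ B) ∧
      ∀ x x' : ι → ℝ, (∀ j, SignType.sign ((g j).eval x) = SignType.sign ((g j).eval x')) →
        SI k (evc e x) (evc e x') := by
  induction k with
  | zero =>
    intro b
    refine ⟨1, b, fun ι A _ e he => ⟨A, inferInstance, fun a => e a 0, ?_, fun a => he a 0, ?_⟩⟩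
    · rw [pow_one]
      omega
    · intro x x' h
      exact h
  | succ k ih =>
    intro b
    obtain ⟨M, B, h⟩ := ih (4 * b + 3)
    refine ⟨2 * M + 2, B + b, fun ι A _ e he => ?_⟩
    obtain ⟨J, _, g, hJ, hg, hs⟩ := h ι (A ⊕ A × A) (nxtE e) (cost_nxtE e b he)
    refine ⟨A ⊕ J, inferInstance, Sum.elim (fun a => e a (Fin.last (k + 1))) g, ?_, ?_, ?_⟩
    · rw [Fintype.card_sum]
      have h1 : Fintype.card (A ⊕ A × A) + 2 ≤ (Fintype.card A + 2) ^ 2 := by
        rw [Fintype.card_sum, Fintype.card_prod]
        ring_nf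
        omega
      set a := Fintype.card A
      have h2 : Fintype.card J ≤ (a + 2) ^ (2 * M) := by
        refine hJ.trans ?_
        rw [pow_mul]
        exact Nat.pow_le_pow_left h1 M
      have h3 : 1 ≤ (a + 2) ^ (2 * M) := Nat.one_le_pow _ _ (by omega)
      calc a + Fintype.card J ≤ a * (a + 2) ^ (2 * M) + (a + 2) ^ (2 * M) :=
            Nat.add_le_add (Nat.le_mul_of_pos_right a (by omega)) h2
        _ = (a + 1) * (a + 2) ^ (2 * M) := by ring
        _ ≤ (a + 2) ^ 2 * (a + 2) ^ (2 * M) := by
            apply Nat.mul_le_mul_right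
            nlinarith
        _ = (a + 2) ^ (2 * M + 2) := by rw [← pow_add, add_comm 2]
    · rintro (a | j)
      · have := he a (Fin.last (k + 1))
        simp only [Sum.elim_inl]
        omega
      · have := hg j
        simp only [Sum.elim_inr]
        omega
    · intro x x' hx
      refine ⟨fun a => hx (Sum.inl a), ?_⟩
      rw [← evc_nxtE, ← evc_nxtE]
      exact hs x x' (fun j => hx (Sum.inr j))

end Pool.Agent.Lib_helper23.PL
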