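import Pool.Agent.Lib_helper23.PL.Defs

/-!
# Building computation trees: rules and binary search
-/

namespace Pool.Agent.Lib_helper23.PL

variable {ι α : Type}

/-- a tree computes `f` on the inputs of `I` in time `t` -/
def Loc (I : Set (ι → ℝ)) (f : (ι → ℝ) → α) (t : ℕ) : Prop :=
  ∃ T : Tree ι α, ∀ x ∈ I, T.run x = f x ∧ T.time x ≤ t

theorem Loc.mono {I I' : Set (ι → ℝ)} {f : (ι → ℝ) → α} {t t' : ℕ} (h : Loc I f t)
    (hI : I' ⊆ I) (ht : t ≤ t') : Loc I' f t' := by
  obtain ⟨T, hT⟩ := h
  exact ⟨T, fun x hx => ⟨(hT x (hI hx)).1, (hT x (hI hx)).2.trans ht⟩⟩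

theorem Loc.const {I : Set (ι → ℝ)} {f : (ι → ℝ) → α} (a : α) (h : ∀ x ∈ I, f x = a) :
    Loc I f 0 :=
  ⟨.leaf a, fun x hx => ⟨(h x hx).symm, le_rfl⟩⟩

theorem Loc.node {I : Set (ι → ℝ)} {f : (ι → ℝ) → α} {t : ℕ} (e : Expr ι)
    (h : ∀ s : SignType, Loc (I ∩ {x | SignType.sign (e.eval x) = s}) f t) :
    Loc I f (t + (e.cost + 2)) := by
  choose T hT using h
  refine ⟨.node e T, fun x hx => ?_⟩
  have h1 := hT (SignType.sign (e.eval x)) x ⟨hx, rfl⟩
  refine ⟨h1.1, ?_⟩
  show e.cost + 2 + (T (SignType.sign (e.eval x))).time x ≤ _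
  omega

/-- a median -/
theorem exists_median {A : Type} (r : A → ℝ) (S : Finset A) (m : ℕ) (h1 : S.card < 2 ^ (m + 1))
    (h2 : ¬ S.card < 2 ^ m) : ∃ μ ∈ S, (S.filter (fun a => r a < r μ)).card < 2 ^ m ∧
      (S.filter (fun a => r μ < r a)).card < 2 ^ m := by
  classical
  push Not at h2
  have hpos : 0 < 2 ^ m := by positivity
  have hSne : S.Nonempty := Finset.card_pos.mp (by omega)
  obtain ⟨M, hM, hMmax⟩ := Finset.exists_max_image S r hSne
  set T := S.filter (fun μ => 2 ^ m ≤ (S.filter (fun a => r a ≤ r μ)).card) with hT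
  have hTne : T.Nonempty := by
    refine ⟨M, Finset.mem_filter.mpr ⟨hM, ?_⟩⟩
    rwa [Finset.filter_true_of_mem (fun a ha => hMmax a ha)]
  obtain ⟨μ, hμ, hmin⟩ := Finset.exists_min_image T r hTne
  obtain ⟨hμS, hμc⟩ := Finset.mem_filter.mp hμ
  refine ⟨μ, hμS, ?_, ?_⟩
  · rcases (S.filter (fun a => r a < r μ)).eq_empty_or_nonempty with he | hne
    · rw [he]; simpa using hpos
    · obtain ⟨ν, hν, hνmax⟩ := Finset.exists_max_image _ r hne
      obtain ⟨hνS, hνlt⟩ := Finset.mem_filter.mp hν
      have hνT : ν ∉ T := fun hh => absurd (hmin ν hh) (not_le.mpr hνlt)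
      have hc : (S.filter (fun a => r a ≤ r ν)).card < 2 ^ m := by
        by_contra hcon
        exact hνT (Finset.mem_filter.mpr ⟨hνS, not_lt.mp hcon⟩)
      refine lt_of_le_of_lt (Finset.card_le_card ?_) hc
      intro a ha
      exact Finset.mem_filter.mpr ⟨(Finset.mem_filter.mp ha).1, hνmax a ha⟩
  · have hsum := Finset.card_filter_add_card_filter_not (s := S) (fun a => r a ≤ r μ)
    have heq : S.filter (fun a => r μ < r a) = S.filter (fun a => ¬ r a ≤ r μ) :=
      Finset.filter_congr fun a _ => by rw [not_le]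
    rw [heq]
    rw [pow_succ] at h1
    omega

theorem sign_cancel {a s t : SignType} (ha : a ≠ 0) (h : a * s = t) : s = a * t := by
  revert a s t
  decide

/-- binary search -/
theorem search {A : Type} (e : A → Expr ι) (K : ℕ) (hK : ∀ a, (e a).cost ≤ K) (r : A → ℝ)
    (sg : A → SignType) {f : (ι → ℝ) → α} {t₀ : ℕ} (m : ℕ) :
    ∀ (S : Finset A) (_ : S.card < 2 ^ m) (_ : ∀ a ∈ S, sg a ≠ 0) (I : Set (ι → ℝ))
      (_ : ∀ x ∈ I, ∃ t : ℝ, ∀ a ∈ S,
        SignType.sign ((e a).eval x) = sg a * SignType.sign (t - r a))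
      (_ : ∀ s : A → SignType,
        Loc (I ∩ {x | ∀ a ∈ S, SignType.sign ((e a).eval x) = s a}) f t₀),
      Loc I f (t₀ + m * (K + 2)) := by
  classical
  induction m with
  | zero =>
    intro S hS _ I _ hc
    have hS0 : S = ∅ := by
      rw [← Finset.card_eq_zero]
      simpa using hS
    refine (hc 0).mono (fun x hx => ⟨hx, ?_⟩) (by omega)
    intro a ha
    rw [hS0] at ha
    exact absurd ha (Finset.notMem_empty a)
  | succ m ih =>
    intro S hS hsg I hI hc
    by_cases hlt : S.card < 2 ^ m
    · refine (ih S hlt hsg I hI hc).mono subset_rfl ?_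
      have : m * (K + 2) ≤ (m + 1) * (K + 2) := Nat.mul_le_mul_right _ (Nat.le_succ m)
      omega
    · obtain ⟨μ, hμS, hlo, hhi⟩ := exists_median r S m hS hlt
      have hkey : ∀ s : SignType,
          Loc (I ∩ {x | SignType.sign ((e μ).eval x) = s}) f (t₀ + m * (K + 2)) := by
        intro s
        have htri : sg μ * s = 0 ∨ sg μ * s = -1 ∨ sg μ * s = 1 := by
          generalize sg μ * s = u
          revert u
          decide
        have hx3 : ∀ x ∈ I ∩ {x | SignType.sign ((e μ).eval x) = s}, ∃ t : ℝ,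
            SignType.sign (t - r μ) = sg μ * s ∧ ∀ a ∈ S,
              SignType.sign ((e a).eval x) = sg a * SignType.sign (t - r a) := by
          intro x hx
          obtain ⟨t, ht⟩ := hI x hx.1
          refine ⟨t, ?_, ht⟩
          have h1 := ht μ hμS
          rw [show SignType.sign ((e μ).eval x) = s from hx.2] at h1
          exact sign_cancel (hsg μ hμS) h1.symm
        rcases htri with h0 | hneg | hpos
        · refine (hc (fun a => sg a * SignType.sign (r μ - r a))).mono ?_ (Nat.le_add_right _ _)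
          intro x hx
          refine ⟨hx.1, fun a ha => ?_⟩
          obtain ⟨t, ht1, ht2⟩ := hx3 x hx
          rw [h0, sign_eq_zero_iff, sub_eq_zero] at ht1
          rw [ht2 a ha, ht1]
        · apply ih (S.filter (fun a => r a < r μ)) hlo
            (fun a ha => hsg a (Finset.mem_filter.mp ha).1)
          · intro x hx
            obtain ⟨t, _, ht2⟩ := hx3 x hx
            exact ⟨t, fun a ha => ht2 a (Finset.mem_filter.mp ha).1⟩
          · intro s1
            refine (hc (fun a => if r a < r μ then s1 a else sg a * (-1))).mono ?_ le_rfl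
            intro x hx
            refine ⟨hx.1.1, fun a ha => ?_⟩
            by_cases hlt' : r a < r μ
            · rw [if_pos hlt']
              exact hx.2 a (Finset.mem_filter.mpr ⟨ha, hlt'⟩)
            · rw [if_neg hlt']
              obtain ⟨t, ht1, ht2⟩ := hx3 x hx.1
              rw [hneg, sign_eq_neg_one_iff] at ht1
              rw [ht2 a ha, sign_neg (by linarith [not_lt.mp hlt'])]
        · apply ih (S.filter (fun a => r μ < r a)) hhi
            (fun a ha => hsg a (Finset.mem_filter.mp ha).1)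
          · intro x hx
            obtain ⟨t, _, ht2⟩ := hx3 x hx
            exact ⟨t, fun a ha => ht2 a (Finset.mem_filter.mp ha).1⟩
          · intro s1
            refine (hc (fun a => if r μ < r a then s1 a else sg a * 1)).mono ?_ le_rfl
            intro x hx
            refine ⟨hx.1.1, fun a ha => ?_⟩
            by_cases hlt' : r μ < r a
            · rw [if_pos hlt']
              exact hx.2 a (Finset.mem_filter.mpr ⟨ha, hlt'⟩)
            · rw [if_neg hlt']
              obtain ⟨t, ht1, ht2⟩ := hx3 x hx.1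
              rw [hpos, sign_eq_one_iff] at ht1
              rw [ht2 a ha, sign_pos (by linarith [not_lt.mp hlt'])]
      refine (Loc.node (e μ) hkey).mono subset_rfl ?_
      have := hK μ
      rw [Nat.add_mul]
      omega

end Pool.Agent.Lib_helper23.PL
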