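import Pool.Agent.Lib_helper23.PL.Defs

/-!
# Lower bounds for time and space
-/

namespace Pool.Agent.Lib_helper23.PL

open Filter Topology

/-- the answers that a tree can give within time `t` -/
def Tree.ans {ι α : Type} [DecidableEq α] : ℕ → Tree ι α → Finset α
  | _, .leaf a => {a}
  | t, .node e b => if e.cost + 2 ≤ t then (b (-1)).ans (t - (e.cost + 2)) ∪
      (b 0).ans (t - (e.cost + 2)) ∪ (b 1).ans (t - (e.cost + 2)) else ∅

theorem Tree.card_ans {ι α : Type} [DecidableEq α] (T : Tree ι α) :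
    ∀ t : ℕ, (T.ans t).card ≤ 3 ^ t := by
  induction T with
  | leaf a =>
    intro t
    simp only [ans, Finset.card_singleton]
    exact Nat.one_le_pow _ _ (by norm_num)
  | node e b ih =>
    intro t
    simp only [ans]
    split_ifs with h
    · obtain ⟨s, rfl⟩ := Nat.exists_eq_add_of_le h
      rw [Nat.add_sub_cancel_left]
      have h1 := ih (-1) s
      have h2 := ih 0 s
      have h3 := ih 1 s
      have h4 : 3 ^ (e.cost + 2 + s) = 3 ^ e.cost * 9 * 3 ^ s := by
        rw [pow_add, pow_add]; norm_num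
      have h5 : 1 ≤ 3 ^ e.cost := Nat.one_le_pow _ _ (by norm_num)
      have h7 : 1 * 9 * 3 ^ s ≤ 3 ^ e.cost * 9 * 3 ^ s :=
        Nat.mul_le_mul_right _ (Nat.mul_le_mul_right _ h5)
      have h8 := Finset.card_union_le ((b (-1)).ans s) ((b 0).ans s)
      have h9 := Finset.card_union_le ((b (-1)).ans s ∪ (b 0).ans s) ((b 1).ans s)
      omega
    · simp

theorem Tree.run_mem {ι α : Type} [DecidableEq α] (T : Tree ι α) (x : ι → ℝ) :
    ∀ t : ℕ, T.time x ≤ t → T.run x ∈ T.ans t := by
  induction T with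
  | leaf a => intro t _; simp [ans, run]
  | node e b ih =>
    intro t ht
    have ht' : e.cost + 2 + (b (SignType.sign (e.eval x))).time x ≤ t := ht
    have hle : e.cost + 2 ≤ t := by omega
    show (b (SignType.sign (e.eval x))).run x ∈ (Tree.node e b).ans t
    have hn : (Tree.node e b).ans t = (b (-1)).ans (t - (e.cost + 2)) ∪
        (b 0).ans (t - (e.cost + 2)) ∪ (b 1).ans (t - (e.cost + 2)) := by
      simp only [ans, if_pos hle]
    rw [hn]
    have h1 := ih (SignType.sign (e.eval x)) (t - (e.cost + 2)) (by omega)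
    have htri : SignType.sign (e.eval x) = -1 ∨ SignType.sign (e.eval x) = 0 ∨
        SignType.sign (e.eval x) = 1 := by
      generalize SignType.sign (e.eval x) = s
      revert s
      decide
    rw [Finset.mem_union, Finset.mem_union]
    rcases htri with h2 | h2 | h2
    · rw [h2] at h1 ⊢
      exact Or.inl (Or.inl h1)
    · rw [h2] at h1 ⊢
      exact Or.inl (Or.inr h1)
    · rw [h2] at h1 ⊢
      exact Or.inr h1

/-- the time is at least logarithmic -/
theorem time_lower {d n m m' t : ℕ} (hex : ∃ F : Fin n → Set (Fin d → ℝ), IsSubdivision F)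
    (hS : Scheme d n m m' t) : n ≤ 3 ^ t := by
  classical
  obtain ⟨F, hF⟩ := hex
  obtain ⟨P, hP⟩ := hS
  obtain ⟨r, p, h⟩ := hP F hF
  have : ∀ i, ∃ s, s ∈ F i := fun i => (hF.connected i).nonempty
  choose s hs using this
  have hrun : ∀ i, (P p).run (Sum.elim (s i) r) = i := by
    intro i
    by_contra hne
    exact Set.disjoint_left.mp (hF.disjoint _ _ hne) (h (s i)).1 (hs i)
  have huniv : (Finset.univ : Finset (Fin n)) ⊆ (P p).ans t := by
    intro i _
    rw [← hrun i]
    exact (P p).run_mem _ t (h (s i)).2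
  calc n = (Finset.univ : Finset (Fin n)).card := by simp
    _ ≤ _ := Finset.card_le_card huniv
    _ ≤ 3 ^ t := (P p).card_ans t

/-- an expression along the diagonal -/
theorem Expr.diag {d m : ℕ} (r : Fin m → ℝ) (e : Expr (Fin d ⊕ Fin m)) :
    ∃ g : Polynomial (Algebra.adjoin ℚ (Set.range r)), ∀ t : ℝ,
      e.eval (Sum.elim (fun _ => t) r) = Polynomial.aeval t g := by
  induction e with
  | var i =>
    rcases i with l | j
    · exact ⟨Polynomial.X, fun t => by simp [Expr.eval]⟩
    · exact ⟨Polynomial.C ⟨r j, Algebra.subset_adjoin ⟨j, rfl⟩⟩, fun t => by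
        simp only [Expr.eval, Sum.elim_inr, Polynomial.aeval_C]
        rfl⟩
  | zero => exact ⟨0, fun t => by simp [Expr.eval]⟩
  | one => exact ⟨1, fun t => by simp [Expr.eval]⟩
  | add e f he hf =>
    obtain ⟨g, hg⟩ := he
    obtain ⟨g', hg'⟩ := hf
    exact ⟨g + g', fun t => by simp [Expr.eval, hg, hg']⟩
  | sub e f he hf =>
    obtain ⟨g, hg⟩ := he
    obtain ⟨g', hg'⟩ := hf
    exact ⟨g - g', fun t => by simp [Expr.eval, hg, hg']⟩
  | mul e f he hf =>
    obtain ⟨g, hg⟩ := he
    obtain ⟨g', hg'⟩ := hf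
    exact ⟨g * g', fun t => by simp [Expr.eval, hg, hg']⟩

/-- near a transcendental point the answer does not change -/
theorem Tree.locally_const {d m : ℕ} {α : Type} (r : Fin m → ℝ) (c : ℝ)
    (hc : ¬ IsAlgebraic (Algebra.adjoin ℚ (Set.range r)) c) (T : Tree (Fin d ⊕ Fin m) α) :
    ∀ᶠ t in 𝓝 c, T.run (Sum.elim (fun _ => t) r) = T.run (Sum.elim (fun _ => c) r) := by
  induction T with
  | leaf a => exact Eventually.of_forall fun t => rfl
  | node e b ih =>
    obtain ⟨g, hg⟩ := e.diag (d := d) r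
    have hs : ∀ᶠ t in 𝓝 c, SignType.sign (e.eval (Sum.elim (fun _ => t) r)) =
        SignType.sign (e.eval (Sum.elim (fun _ => c) r)) := by
      by_cases hg0 : g = 0
      · exact Eventually.of_forall fun t => by rw [hg, hg, hg0]; simp
      · have hne : Polynomial.aeval c g ≠ 0 := fun h0 => hc ⟨g, hg0, h0⟩
        have hcont : ContinuousAt (fun t : ℝ => Polynomial.aeval t g) c :=
          (Polynomial.continuous_aeval g).continuousAt
        simp only [hg]
        rcases lt_or_gt_of_ne hne with hlt | hgt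
        · filter_upwards [hcont.eventually_lt continuousAt_const hlt] with t ht
          rw [sign_neg ht, sign_neg hlt]
        · filter_upwards [continuousAt_const.eventually_lt hcont hgt] with t ht
          rw [sign_pos ht, sign_pos hgt]
    filter_upwards [hs, ih (SignType.sign (e.eval (Sum.elim (fun _ => c) r)))] with t h1 h2
    show (b (SignType.sign (e.eval (Sum.elim (fun _ => t) r)))).run _ =
      (b (SignType.sign (e.eval (Sum.elim (fun _ => c) r)))).run _
    rw [h1, h2]

theorem exists_indep (k : ℕ) : ∃ S : Finset ℝ, S.card = k ∧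
    (AlgebraicIndependent.matroid ℚ ℝ).Indep (S : Set ℝ) := by
  obtain ⟨B, hB⟩ := (AlgebraicIndependent.matroid ℚ ℝ).exists_isBase
  have halg : Algebra.IsAlgebraic (Algebra.adjoin ℚ B) ℝ :=
    AlgebraicIndependent.matroid_spanning_iff.mp hB.spanning
  have hinf : B.Infinite := by
    intro hfin
    have h1 : Cardinal.mk ℝ ≤ max (Cardinal.mk (Algebra.adjoin ℚ B)) Cardinal.aleph0 :=
      Algebra.IsAlgebraic.cardinalMk_le_max _ _
    have h2 : Cardinal.mk (Algebra.adjoin ℚ B) ≤ Cardinal.aleph0 := by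
      refine (Algebra.cardinalMk_adjoin_le ℚ B).trans ?_
      have h3 : Cardinal.mk B < Cardinal.aleph0 := Cardinal.lt_aleph0_iff_finite.mpr hfin
      have h4 : Cardinal.mk ℚ ≤ Cardinal.aleph0 := Cardinal.mk_le_aleph0
      exact max_le (max_le h4 h3.le) le_rfl
    rw [max_eq_right h2, Cardinal.mk_real] at h1
    exact absurd h1 (not_le.mpr Cardinal.aleph0_lt_continuum)
  obtain ⟨S, hS1, hS2⟩ := hinf.exists_subset_card_eq k
  exact ⟨S, hS2, hB.indep.subset hS1⟩

theorem card_le_of_algebraic {m : ℕ} (S : Finset ℝ)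
    (hS : (AlgebraicIndependent.matroid ℚ ℝ).Indep (S : Set ℝ)) (r : Fin m → ℝ)
    (h : ∀ c ∈ S, IsAlgebraic (Algebra.adjoin ℚ (Set.range r)) c) : S.card ≤ m := by
  have hsub : (S : Set ℝ) ⊆ (AlgebraicIndependent.matroid ℚ ℝ).closure (Set.range r) := by
    intro c hc
    rw [AlgebraicIndependent.matroid_closure_eq]
    exact h c hc
  have h1 : (S : Set ℝ).encard ≤ (AlgebraicIndependent.matroid ℚ ℝ).eRk
      ((AlgebraicIndependent.matroid ℚ ℝ).closure (Set.range r)) := hS.encard_le_eRk_of_subset hsub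
  rw [Matroid.eRk_closure_eq] at h1
  have h2 := h1.trans (Matroid.eRk_le_encard _ _)
  have h3 : (Set.range r).encard ≤ m := by
    rw [← Set.image_univ]
    refine (Set.encard_image_le _ _).trans ?_
    simp
  have h4 := h2.trans h3
  rw [Set.encard_coe_eq_coe_finsetCard] at h4
  exact_mod_cast h4

end Pool.Agent.Lib_helper23.PL
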