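import Pool.Agent.Lib_helper23.PL.Count

/-!
# Point location with linear space and logarithmic time
-/

namespace Pool.Agent.Lib_helper23.PL

/-- a subdivision together with the data used to describe it -/
structure Pre {n d : ℕ} (F : Fin n → Set (Fin d → ℝ)) (x : Vars n d → ℝ)
    (δ : Fin n → Fin (d + 1)) : Prop where
  sub : IsSubdivision F
  desc : Describes F (coef x)
  samp : ∀ i, samp x i ∈ F i
  dim : ∀ i, dim (F i) = δ i

theorem exists_pre {n d : ℕ} (F : Fin n → Set (Fin d → ℝ)) (hF : IsSubdivision F) :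
    ∃ x δ, Pre F x δ := by
  obtain ⟨c, hc⟩ := exists_describes F hF
  have : ∀ i, ∃ s, s ∈ F i := fun i => (hF.connected i).nonempty
  choose s hs using this
  have hd : ∀ i, PL.dim (F i) < d + 1 := by
    intro i
    have h1 : PL.dim (F i) ≤ Module.finrank ℝ (Fin d → ℝ) := Submodule.finrank_le _
    rw [Module.finrank_fin_fun] at h1
    omega
  exact ⟨Sum.elim (fun p => c p.1 p.2) (fun p => s p.1 p.2), fun i => ⟨PL.dim (F i), hd i⟩,
    ⟨hF, hc, hs, fun i => rfl⟩⟩

theorem pre_label {n d : ℕ} {F F' : Fin n → Set (Fin d → ℝ)} {x x' : Vars n d → ℝ}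
    {δ : Fin n → Fin (d + 1)} (h : Pre F x δ) (h' : Pre F' x' δ)
    (hSI : SI d (coef x) (coef x')) (hs : ∀ i, Same (coef x) (coef x') (samp x i) (samp x' i))
    {q q' : Fin d → ℝ} (hq : Same (coef x) (coef x') q q') (i : Fin n) (hi : q ∈ F i) :
    q' ∈ F' i :=
  (label h.sub h'.sub h.desc h'.desc hSI h.samp h'.samp hs
    (fun i => by rw [h.dim, h'.dim]) _ i rfl q q' hq).mp hi

/-- **Point location in space `O(n)` and time `O(log n)`** -/
theorem pointLocation (d : ℕ) : ∃ C : ℕ, ∀ n : ℕ, 2 ≤ n →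
    Scheme d n (C * n) (C * n) (C * Nat.log 2 n) := by
  classical
  obtain ⟨C₁, hC₁⟩ := exists_code d
  obtain ⟨B, hB⟩ := level d 1
  set C : ℕ := C₁ + d * (d + 1) + B * (d + 2) with hC
  refine ⟨C, fun n hn => ?_⟩
  obtain ⟨code, hcode⟩ := hC₁ n hn C (by omega)
  -- storing the coefficients
  obtain ⟨κ⟩ : Nonempty ((Fin n × Fin d) × Fin (d + 1) ↪ Fin (C * n)) := by
    apply Function.Embedding.nonempty_of_card_le
    simp only [Fintype.card_prod, Fintype.card_fin]
    calc n * d * (d + 1) = d * (d + 1) * n := by ring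
      _ ≤ C * n := Nat.mul_le_mul_right n (by omega)
  -- the coefficients read from the input
  set e : Fin n × Fin d → Fin (d + 1) → Expr (Fin d ⊕ Fin (C * n)) :=
    fun a l => Expr.var (Sum.inr (κ (a, l))) with he
  set y : Fin (d + 1) → Expr (Fin d ⊕ Fin (C * n)) :=
    Fin.cons Expr.one (fun l => Expr.var (Sum.inl l)) with hy
  have hyeval : ∀ z : Fin d ⊕ Fin (C * n) → ℝ, (fun i => (y i).eval z) = hom (fun l => z (Sum.inl l)) := by
    intro z
    funext l
    refine Fin.cases rfl (fun l => ?_) l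
    rfl
  set L : ℕ := (d + 2) * Nat.log 2 n with hL
  have hLcard : Fintype.card (Fin n × Fin d) < 2 ^ L := by
    have h1 : n < 2 ^ (Nat.log 2 n + 1) := Nat.lt_pow_succ_log_self (by norm_num) n
    have hlog : 1 ≤ Nat.log 2 n := Nat.log_pos (by norm_num) hn
    have h2 : d ≤ 2 ^ d := (Nat.lt_two_pow_self).le
    simp only [Fintype.card_prod, Fintype.card_fin]
    have h3 : Nat.log 2 n + 1 + d ≤ L := by
      rw [hL]
      nlinarith
    calc n * d ≤ n * 2 ^ d := Nat.mul_le_mul_left _ h2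
      _ < 2 ^ (Nat.log 2 n + 1) * 2 ^ d := Nat.mul_lt_mul_of_pos_right h1 (by positivity)
      _ = 2 ^ (Nat.log 2 n + 1 + d) := by rw [pow_add 2 _ d]
      _ ≤ 2 ^ L := Nat.pow_le_pow_right (by norm_num) h3
  -- the relation between inputs and answers
  let Good : (Fin (C * n) → Fin n) → (Fin d ⊕ Fin (C * n) → ℝ) → Fin n → Prop := fun p z i =>
    ∃ (F : Fin n → Set (Fin d → ℝ)) (x : Vars n d → ℝ) (δ : Fin n → Fin (d + 1)),
      Pre F x δ ∧ code x δ = p ∧ coef x = evc e z ∧ (fun l => z (Sum.inl l)) ∈ F i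
  have hGood : ∀ p z z' i i', Good p z i → Good p z' i' →
      Same (evc e z) (evc e z') (fun l => z (Sum.inl l)) (fun l => z' (Sum.inl l)) → i = i' := by
    rintro p z z' i i' ⟨F, x, δ, h1, h2, h3, h4⟩ ⟨F', x', δ', h1', h2', h3', h4'⟩ hsame
    obtain ⟨g1, g2, g3⟩ := hcode x x' δ δ' (h2.trans h2'.symm)
    subst g1
    rw [← h3, ← h3'] at hsame
    have h5 := pre_label h1 h1' g2 g3 hsame i h4
    by_contra hne
    exact Set.disjoint_left.mp (h1'.sub.disjoint i i' hne) h5 h4'
  have hn0 : 0 < n := by omega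
  let f : (Fin (C * n) → Fin n) → (Fin d ⊕ Fin (C * n) → ℝ) → Fin n := fun p z =>
    if h : ∃ i, Good p z i then Classical.choose h else ⟨0, hn0⟩
  have hf : ∀ p z i, Good p z i → f p z = i := by
    intro p z i hi
    have hex : ∃ i, Good p z i := ⟨i, hi⟩
    have : f p z = Classical.choose hex := dif_pos hex
    rw [this]
    exact hGood p z z _ _ (Classical.choose_spec hex) hi (fun a => rfl)
  let I : (Fin (C * n) → Fin n) → Set (Fin d ⊕ Fin (C * n) → ℝ) := fun p => {z | ∃ i, Good p z i}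
  have hLoc : ∀ p, Loc (I p) (f p) (0 + B * L) := by
    intro p
    apply hB (Fin d ⊕ Fin (C * n)) (Fin n × Fin d) (Fin n) e y (fun a i => le_rfl)
      (fun i => by refine Fin.cases (Nat.zero_le _) (fun l => ?_) i; exact le_rfl) L hLcard (f p) 0 (I p)
    · rintro z ⟨i, F, x, δ, h1, h2, h3, h4⟩ z' ⟨i', F', x', δ', h1', h2', h3', h4'⟩
      obtain ⟨g1, g2, g3⟩ := hcode x x' δ δ' (h2.trans h2'.symm)
      rw [← h3, ← h3']
      exact g2
    · intro z _
      exact congrFun (hyeval z) 0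
    · intro s
      rcases (I p ∩ {x | ∀ a, SignType.sign (val (evc e x a) (fun i => (y i).eval x)) =
        s a}).eq_empty_or_nonempty with hE | ⟨z₀, hz₀⟩
      · rw [hE]
        exact Loc.const ⟨0, hn0⟩ (fun x hx => absurd hx (Set.notMem_empty x))
      · refine Loc.const (f p z₀) (fun z hz => ?_)
        obtain ⟨i, hi⟩ := hz.1
        obtain ⟨i₀, hi₀⟩ := hz₀.1
        rw [hf p z i hi, hf p z₀ i₀ hi₀]
        apply hGood p z z₀ i i₀ hi hi₀
        intro a
        have e1 := hz.2 a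
        have e2 := hz₀.2 a
        rw [hyeval] at e1 e2
        exact e1.trans e2.symm
  choose P hP using hLoc
  refine ⟨P, fun F hF => ?_⟩
  obtain ⟨x, δ, hpre⟩ := exists_pre F hF
  set r : Fin (C * n) → ℝ := Function.extend κ (fun p => coef x p.1 p.2) 0 with hr
  refine ⟨r, code x δ, fun q => ?_⟩
  have hco : ∀ q : Fin d → ℝ, coef x = evc e (Sum.elim q r) := by
    intro q
    funext a l
    show coef x a l = r (κ (a, l))
    rw [hr, κ.injective.extend_apply]
  obtain ⟨i, hi⟩ := hF.cover q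
  have hgood : Good (code x δ) (Sum.elim q r) i := ⟨F, x, δ, hpre, rfl, hco q, hi⟩
  obtain ⟨hrun, htime⟩ := hP (code x δ) (Sum.elim q r) ⟨i, hgood⟩
  refine ⟨?_, htime.trans ?_⟩
  · rw [hrun, hf _ _ i hgood]
    exact hi
  · rw [zero_add, hL, ← mul_assoc]
    exact Nat.mul_le_mul_right _ (by omega)

end Pool.Agent.Lib_helper23.PL
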