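import Pool.Agent.Lib_helper23.PL.Lower

/-!
# The subdivision into parallel slabs
-/

namespace Pool.Agent.Lib_helper23.PL

open Filter Topology

/-- the index of the slab -/
noncomputable def idx (S : Finset ℝ) (t : ℝ) : ℕ :=
  (S.filter (fun c => c < t)).card + (S.filter (fun c => c ≤ t)).card

theorem idx_mono (S : Finset ℝ) : Monotone (idx S) := by
  intro t u htu
  apply Nat.add_le_add
  · exact Finset.card_le_card (Finset.monotone_filter_right S fun c _ hc => lt_of_lt_of_le hc htu)
  · exact Finset.card_le_card (Finset.monotone_filter_right S fun c _ hc => le_trans hc htu)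

theorem idx_le (S : Finset ℝ) (t : ℝ) : idx S t ≤ 2 * S.card := by
  have h1 := Finset.card_filter_le S (fun c => c < t)
  have h2 := Finset.card_filter_le S (fun c => c ≤ t)
  unfold idx
  omega

theorem idx_of_mem (S : Finset ℝ) (t : ℝ) (ht : t ∈ S) :
    idx S t = 2 * (S.filter (fun c => c < t)).card + 1 := by
  classical
  have h : S.filter (fun c => c ≤ t) = insert t (S.filter (fun c => c < t)) := by
    ext c
    simp only [Finset.mem_filter, Finset.mem_insert]
    constructor
    · rintro ⟨h1, h2⟩
      rcases h2.eq_or_lt with h3 | h3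
      · exact Or.inl h3
      · exact Or.inr ⟨h1, h3⟩
    · rintro (rfl | ⟨h1, h2⟩)
      · exact ⟨ht, le_rfl⟩
      · exact ⟨h1, h2.le⟩
  unfold idx
  rw [h, Finset.card_insert_of_notMem (by simp)]
  omega

theorem idx_of_notMem (S : Finset ℝ) (t : ℝ) (ht : t ∉ S) :
    idx S t = 2 * (S.filter (fun c => c < t)).card := by
  have h : S.filter (fun c => c ≤ t) = S.filter (fun c => c < t) := by
    apply Finset.filter_congr
    intro c hc
    constructor
    · intro h2
      exact lt_of_le_of_ne h2 (fun h3 => ht (h3 ▸ hc))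
    · exact le_of_lt
  unfold idx
  rw [h]
  omega

theorem idx_strict (S : Finset ℝ) (t u : ℝ) (ht : t ∈ S) (htu : t < u) : idx S t < idx S u := by
  have h1 : (S.filter (fun c => c < t)).card < (S.filter (fun c => c < u)).card := by
    apply Finset.card_lt_card
    refine ⟨Finset.monotone_filter_right S fun c _ hc => hc.trans htu, ?_⟩
    intro hsub
    have := hsub (Finset.mem_filter.mpr ⟨ht, htu⟩)
    simp at this
  have h2 : (S.filter (fun c => c ≤ t)).card ≤ (S.filter (fun c => c ≤ u)).card :=
    Finset.card_le_card (Finset.monotone_filter_right S fun c _ hc => hc.trans htu.le)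
  unfold idx
  omega

theorem idx_injOn (S : Finset ℝ) (t u : ℝ) (ht : t ∈ S) (h : idx S t = idx S u) : t = u := by
  rcases lt_trichotomy t u with h1 | h1 | h1
  · exact absurd h (idx_strict S t u ht h1).ne
  · exact h1
  · exfalso
    by_cases hu : u ∈ S
    · exact absurd h (idx_strict S u t hu h1).ne'
    · rw [idx_of_mem S t ht, idx_of_notMem S u hu] at h
      omega

/-- off `S` the index is locally constant -/
theorem idx_locally (S : Finset ℝ) (t : ℝ) (ht : t ∉ S) : ∀ᶠ u in 𝓝 t, idx S u = idx S t := by
  have h : ∀ᶠ u in 𝓝 t, ∀ c ∈ S, (c < u ↔ c < t) ∧ (c ≤ u ↔ c ≤ t) := by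
    rw [Filter.eventually_all_finset]
    intro c hc
    rcases lt_or_gt_of_ne (fun h => ht (h ▸ hc) : c ≠ t) with h1 | h1
    · filter_upwards [lt_mem_nhds h1] with u hu
      exact ⟨⟨fun _ => h1, fun _ => hu⟩, ⟨fun _ => h1.le, fun _ => hu.le⟩⟩
    · filter_upwards [gt_mem_nhds h1] with u hu
      exact ⟨⟨fun h2 => absurd h2 (not_lt.mpr hu.le), fun h2 => absurd h2 (not_lt.mpr h1.le)⟩,
        ⟨fun h2 => absurd h2 (not_le.mpr hu), fun h2 => absurd h2 (not_le.mpr h1)⟩⟩
  filter_upwards [h] with u hu
  unfold idx
  rw [Finset.filter_congr (fun c hc => (hu c hc).1), Finset.filter_congr (fun c hc => (hu c hc).2)]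

theorem idx_surj (S : Finset ℝ) : ∀ i ≤ 2 * S.card, ∀ b : ℝ, (∀ c ∈ S, c < b) →
    ∃ t < b, idx S t = i := by
  classical
  induction S using Finset.induction_on_max with
  | empty =>
    intro i hi b _
    refine ⟨b - 1, by linarith, ?_⟩
    simp only [Finset.card_empty] at hi
    simp [idx]
    omega
  | insert a S ha ih =>
    intro i hi b hb
    have hna : a ∉ S := fun h => lt_irrefl _ (ha a h)
    rw [Finset.card_insert_of_notMem hna] at hi
    have hab : a < b := hb a (Finset.mem_insert_self a S)
    by_cases h1 : i ≤ 2 * S.card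
    · obtain ⟨t, ht, hti⟩ := ih i h1 a ha
      refine ⟨t, ht.trans hab, ?_⟩
      rw [← hti]
      unfold idx
      rw [Finset.filter_insert, Finset.filter_insert, if_neg (not_lt.mpr ht.le),
        if_neg (not_le.mpr ht)]
    · have hfull : S.filter (fun c => c < a) = S := Finset.filter_true_of_mem ha
      by_cases h2 : i = 2 * S.card + 1
      · refine ⟨a, hab, ?_⟩
        rw [idx_of_mem _ a (Finset.mem_insert_self a S), Finset.filter_insert,
          if_neg (lt_irrefl a), hfull, h2]
      · have h3 : i = 2 * (S.card + 1) := by omega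
        obtain ⟨t, hat, htb⟩ := exists_between hab
        refine ⟨t, htb, ?_⟩
        have htS : t ∉ insert a S := by
          intro h
          rcases Finset.mem_insert.mp h with h | h
          · exact hat.ne' h
          · exact absurd (ha t h) (not_lt.mpr hat.le)
        rw [idx_of_notMem _ t htS, Finset.filter_true_of_mem, Finset.card_insert_of_notMem hna, h3]
        intro c hc
        rcases Finset.mem_insert.mp hc with rfl | h
        · exact hat
        · exact (ha c h).trans hat

/-- the slabs and hyperplanes -/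
def slab {d : ℕ} (S : Finset ℝ) (k : ℕ) : Fin (2 * k + 1) → Set (Fin (d + 1) → ℝ) :=
  fun i => {x | idx S (x 0) = i}

theorem slab_subdivision {d : ℕ} (S : Finset ℝ) (k : ℕ) (hS : S.card = k) :
    IsSubdivision (slab (d := d) S k) := by
  have hcont : Continuous (fun x : Fin (d + 1) → ℝ => x 0) := continuous_apply 0
  -- faces in hyperplanes
  have hodd : ∀ c ∈ S, ∀ i : Fin (2 * k + 1), idx S c = i →
      slab (d := d) S k i = {x | x 0 = c} := by
    intro c hc i hi
    ext x
    show idx S (x 0) = i ↔ x 0 = c
    constructor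
    · intro h
      exact (idx_injOn S c (x 0) hc (hi.trans h.symm)).symm
    · intro h
      rw [h, hi]
  have hspan : ∀ c : ℝ, ((affineSpan ℝ {x : Fin (d + 1) → ℝ | x 0 = c} :
      AffineSubspace ℝ (Fin (d + 1) → ℝ)) : Set (Fin (d + 1) → ℝ)) = {x | x 0 = c} := by
    intro c
    apply subset_antisymm
    · intro x hx
      have hsub : (affineSpan ℝ {x : Fin (d + 1) → ℝ | x 0 = c}) ≤
          AffineSubspace.comap (LinearMap.proj (R := ℝ) (φ := fun _ : Fin (d + 1) => ℝ) 0).toAffineMap
            (affineSpan ℝ {c}) := by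
        rw [affineSpan_le]
        intro y hy
        simp only [AffineSubspace.coe_comap, Set.mem_preimage, AffineSubspace.coe_affineSpan_singleton,
          Set.mem_singleton_iff]
        exact hy
      have := hsub hx
      rw [← SetLike.mem_coe, AffineSubspace.coe_comap, Set.mem_preimage,
        AffineSubspace.coe_affineSpan_singleton, Set.mem_singleton_iff] at this
      exact this
    · exact subset_affineSpan ℝ _
  have hopen : ∀ i : Fin (2 * k + 1), (∀ c ∈ S, idx S c ≠ i) → IsOpen (slab (d := d) S k i) := by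
    intro i hi
    rw [isOpen_iff_mem_nhds]
    intro x hx
    have hx' : idx S (x 0) = i := hx
    have hxS : x 0 ∉ S := fun h => hi _ h hx'
    have h1 := hcont.continuousAt.eventually (idx_locally S (x 0) hxS)
    filter_upwards [h1] with y hy
    show idx S (y 0) = i
    rw [hy, hx']
  have hne : ∀ i : Fin (2 * k + 1), (slab (d := d) S k i).Nonempty := by
    intro i
    obtain ⟨b, hb⟩ : ∃ b : ℝ, ∀ c ∈ S, c < b := by
      obtain ⟨b, hb⟩ := S.exists_le
      exact ⟨b + 1, fun c hc => lt_of_le_of_lt (hb c hc) (lt_add_one b)⟩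
    obtain ⟨t, _, ht⟩ := idx_surj S i (by rw [hS]; omega) b hb
    exact ⟨fun _ => t, ht⟩
  refine ⟨fun i => ⟨hne i, ?_⟩, ?_, ?_, ?_, ?_⟩
  · have hord : Set.OrdConnected {t : ℝ | idx S t = i} := by
      refine ⟨fun a ha b hb t ht => ?_⟩
      have h1 := idx_mono S ht.1
      have h2 := idx_mono S ht.2
      have ha' : idx S a = i := ha
      have hb' : idx S b = i := hb
      show idx S t = i
      omega
    have hconv : Convex ℝ (slab (d := d) S k i) :=
      hord.convex.linear_preimage (LinearMap.proj (R := ℝ) (φ := fun _ : Fin (d + 1) => ℝ) 0)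
    exact hconv.isPreconnected
  · intro i j hij
    rw [Set.disjoint_left]
    intro x hx hx'
    apply hij
    apply Fin.ext
    have h1 : idx S (x 0) = i := hx
    have h2 : idx S (x 0) = j := hx'
    omega
  · intro q
    have := idx_le S (q 0)
    exact ⟨⟨idx S (q 0), by omega⟩, rfl⟩
  · intro i
    by_cases hi : ∃ c ∈ S, idx S c = i
    · obtain ⟨c, hc, hci⟩ := hi
      refine ⟨Set.univ, isOpen_univ, ?_⟩
      rw [hodd c hc i hci, hspan, Set.univ_inter]
    · push Not at hi
      refine ⟨slab S k i, hopen i hi, ?_⟩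
      exact (Set.inter_eq_left.mpr (subset_affineSpan ℝ _)).symm
  · intro i q hq hqi
    by_cases hi : ∃ c ∈ S, idx S c = i
    · obtain ⟨c, hc, hci⟩ := hi
      exfalso
      apply hqi
      rw [hodd c hc i hci] at hq ⊢
      have hcl : IsClosed {x : Fin (d + 1) → ℝ | x 0 = c} := isClosed_eq hcont continuous_const
      rwa [hcl.closure_eq] at hq
    · push Not at hi
      have hqS : q 0 ∈ S := by
        by_contra hcon
        apply hqi
        have h1 := hcont.continuousAt.eventually (idx_locally S (q 0) hcon)
        obtain ⟨y, hy1, hy2⟩ := mem_closure_iff_nhds.mp hq _ h1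
        show idx S (q 0) = i
        have h2 : idx S (y 0) = idx S (q 0) := hy1
        have h3 : idx S (y 0) = i := hy2
        omega
      have hle := idx_le S (q 0)
      refine ⟨⟨idx S (q 0), by omega⟩, rfl, ?_⟩
      have htop : affineSpan ℝ (slab (d := d) S k i) = ⊤ :=
        (hopen i hi).affineSpan_eq_top (hne i)
      unfold dim
      rw [htop, AffineSubspace.direction_top, finrank_top]
      apply Submodule.finrank_lt
      intro htop'
      rw [AffineSubspace.direction_eq_top_iff_of_nonempty
        ((affineSpan_nonempty ℝ).mpr (hne _)), hodd (q 0) hqS _ rfl] at htop'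
      have h4 := hspan (q 0)
      rw [htop', AffineSubspace.top_coe] at h4
      have h5 : (fun _ => q 0 + 1 : Fin (d + 1) → ℝ) ∈ {x : Fin (d + 1) → ℝ | x 0 = q 0} := by
        rw [← h4]
        trivial
      have h6 : q 0 + 1 = q 0 := h5
      linarith

/-- linear space is necessary, whatever the time -/
theorem space_lower {d k m m' t : ℕ} (hS : Scheme (d + 1) (2 * k + 1) m m' t) : k ≤ m := by
  obtain ⟨S, hcard, hind⟩ := exists_indep k
  obtain ⟨P, hP⟩ := hS
  obtain ⟨r, p, h⟩ := hP (slab S k) (slab_subdivision S k hcard)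
  rw [← hcard]
  apply card_le_of_algebraic S hind r
  intro c hc
  by_contra hcon
  have h1 := (P p).locally_const r c hcon
  have h2 : ∀ᶠ u in 𝓝 c, idx S u = idx S c := by
    filter_upwards [h1] with u hu
    have a1 := (h (fun _ => u)).1
    have a2 := (h (fun _ => c)).1
    rw [hu] at a1
    have b1 : idx S u = ((P p).run (Sum.elim (fun _ => c) r) : Fin (2 * k + 1)) := a1
    have b2 : idx S c = ((P p).run (Sum.elim (fun _ => c) r) : Fin (2 * k + 1)) := a2
    rw [b1, b2]
  have h3 : ∀ᶠ u in 𝓝[>] c, idx S u = idx S c := nhdsWithin_le_nhds h2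
  obtain ⟨u, hu1, hu2⟩ := (h3.and self_mem_nhdsWithin).exists
  exact absurd hu1 (idx_strict S c u hc hu2).ne'

end Pool.Agent.Lib_helper23.PL
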